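import Pool.Agent.H66.S2.Basic

namespace Pool.H66.S2

open Filter

attribute [local instance] Ultrafilter.add Ultrafilter.addSemigroup

/-- An idempotent ultrafilter on the natural numbers. -/
theorem s_AN0 : S_AN0 := by
  obtain ⟨U, hU, -⟩ := Hindman.exists_idempotent_ultrafilter_le_FS
    (fun _ : ℕ => (1 : ℕ+) : Stream' ℕ+)
  -- finite sets are not in U
  have hfin : ∀ s : Set ℕ+, s.Finite → s ∉ U := by
    intro s hs hmem
    obtain ⟨x, hx, hxU⟩ := Ultrafilter.eq_pure_of_finite_mem hs hmem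
    have h1 : ∀ᶠ m in (↑(U + U) : Filter ℕ+), m ∈ ({x} : Set ℕ+) := by
      rw [hU, hxU]
      exact Filter.mem_pure.2 rfl
    rw [Ultrafilter.eventually_add, hxU] at h1
    have h2 : x + x = x := h1
    have h3 : (x : ℕ) + x = x := by exact_mod_cast congrArg PNat.val h2
    have := x.pos
    omega
  refine ⟨U.map (fun n : ℕ+ => (n : ℕ)), ?_, ?_⟩
  · intro N
    have h1 : {n : ℕ+ | (n : ℕ) < N}.Finite := by
      refine Set.Finite.of_finite_image (f := fun n : ℕ+ => (n : ℕ)) ?_
        (fun a _ b _ h => PNat.coe_injective h)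
      refine (Set.finite_Iio N).subset ?_
      rintro _ ⟨n, hn, rfl⟩
      exact hn
    have h2 := hfin _ h1
    rw [← Ultrafilter.compl_mem_iff_notMem] at h2
    rw [Ultrafilter.mem_map]
    refine Filter.mem_of_superset h2 ?_
    intro n hn
    simpa using hn
  · intro S
    have h1 : ∀ T : Set ℕ+, T ∈ U ↔ {n | {k | n + k ∈ T} ∈ U} ∈ U := by
      intro T
      conv_lhs => rw [← hU]
      exact Ultrafilter.eventually_add U U (fun m => m ∈ T)
    rw [Ultrafilter.mem_map, Ultrafilter.mem_map, h1]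
    rfl

end Pool.H66.S2
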