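import Pool.Agent.H66.S2M.T.AN3

/-!
# Symmetric powers and functoriality: periodicity (module AN4)
-/

namespace Pool.H66.S2

open Filter Topology

section

variable {V : Type} {μ : Mean V} (R : Rep μ) {p : Ultrafilter ℕ} (L : Lms R p)

theorem AN4_conj_mul {V : Type} {w : V → ℂ} (hw : Uni w) : cj w * w = 1 := by
  ext v
  have h2 := Complex.mul_conj (w v)
  rw [Complex.normSq_eq_norm_sq, hw v] at h2
  simp only [Pi.mul_apply, cj, Pi.one_apply]
  rw [mul_comm, h2]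
  simp

theorem AN4_isom {w : V → ℂ} (hw : Uni w) (x y : R.H) :
    inner ℂ (R.T w x) (R.T w y) = inner ℂ x y := by
  rw [R.T_adj w (AN3_bd_uni hw)]
  have h : R.T (cj w) (R.T w y) = (R.T (cj w) * R.T w) y := rfl
  rw [h, ← R.T_mul _ _ (AN3_bd_cj (AN3_bd_uni hw)) (AN3_bd_uni hw), AN4_conj_mul hw, R.T_one]
  rfl

theorem AN4_EE {u : V → ℂ} (hu : Uni u) (x : R.H) : L.E u (L.E u x) = L.E u x := by
  have h : L.E u (L.E u x) = (L.E u * L.E u) x := rfl
  rw [h, L.idem u hu]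

theorem AN4_ET {u : V → ℂ} (hu : Uni u) {f : V → ℂ} (hf : Bd f) (x : R.H) :
    L.E u (R.T f x) = R.T f (L.E u x) := by
  have h : R.T f (L.E u x) = (R.T f * L.E u) x := rfl
  rw [h, L.comm u hu f hf]
  rfl

/-- The value of the quadratic form. -/
theorem AN4_inner_e {u : V → ℂ} (hu : Uni u) {f : V → ℂ} (hf : Bd f) :
    inner ℂ (L.E u R.e) (R.T f (L.E u R.e)) = inner ℂ R.e (R.T f (L.E u R.e)) := by
  rw [L.adj u hu, AN4_ET R L hu hf, AN4_EE R L hu]

theorem AN4_quad {u w : V → ℂ} (hu : Uni u) (hw : Uni w) :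
    ((‖R.T w (L.E u R.e) - L.E u R.e‖ ^ 2 : ℝ) : ℂ) =
      2 * inner ℂ R.e (L.E u R.e) - inner ℂ R.e (R.T w (L.E u R.e)) -
        inner ℂ R.e (R.T (cj w) (L.E u R.e)) := by
  have h0 : inner ℂ (L.E u R.e) (L.E u R.e) = inner ℂ R.e (L.E u R.e) := by
    rw [L.adj u hu, AN4_EE R L hu]
  have h1 := AN4_inner_e R L hu (AN3_bd_uni hw)
  have h2 : inner ℂ (R.T w (L.E u R.e)) (L.E u R.e) = inner ℂ R.e (R.T (cj w) (L.E u R.e)) := by
    rw [R.T_adj w (AN3_bd_uni hw), AN4_inner_e R L hu (AN3_bd_cj (AN3_bd_uni hw))]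
  have h3 : ((‖R.T w (L.E u R.e) - L.E u R.e‖ ^ 2 : ℝ) : ℂ) =
      inner ℂ (R.T w (L.E u R.e) - L.E u R.e) (R.T w (L.E u R.e) - L.E u R.e) := by
    rw [inner_self_eq_norm_sq_to_K]
    push_cast
    rfl
  rw [h3, inner_sub_left, inner_sub_right, inner_sub_right, AN4_isom R hw, h0, h1, h2]
  ring

end

theorem s_AN4 (hAN3 : S_AN3) : S_AN4 := by
  intro V μ R p hp L X B ι _ u hu k hk
  classical
  have hu0 : ∀ j v, u j v ≠ 0 := fun j v h => by
    have := hu j v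
    rw [h] at this
    simp at this
  -- the shifted limits
  have huz : ∀ (i : ℤ) j, Uni (fun v => u j v ^ i) := fun i j v => by simp [hu j v]
  have hex : ∀ i : ℤ, ∃ k' : X →₀ ℤ,
      ∑ j, R.T (fun v => u j v ^ i) * L.E (u j) = R.T (B.co k') := by
    intro i
    refine hAN3 V μ R p hp L X B ι (fun j v => u j v ^ i) u (fun j => AN3_bd_uni (huz i j)) hu
      (fun n => k (n + i).toNat) ?_
    filter_upwards [hp.1 (i.natAbs + 1)] with n hn v
    have hn' : i.natAbs + 1 ≤ n := hn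
    have h1 : 1 ≤ ((n : ℤ) + i).toNat := by omega
    have h2 : (((((n : ℤ) + i).toNat : ℕ)) : ℤ) = (n : ℤ) + i := by omega
    rw [← hk _ h1 v]
    refine Finset.sum_congr rfl fun j _ => ?_
    rw [← zpow_natCast (u j v) ((n : ℤ) + i).toNat, h2, zpow_add₀ (hu0 j v), zpow_natCast,
      mul_comm]
  choose k' hk' using hex
  -- the integers
  have hT1 : R.T (B.b B.x0) R.e = R.e := by
    rw [B.b0, R.T_one]
    rfl
  have hint : ∀ i : ℤ, ∑ j, inner ℂ R.e (R.T (fun v => u j v ^ i) (L.E (u j) R.e)) =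
      ((k' i B.x0 : ℤ) : ℂ) := by
    intro i
    have h1 := AN3_inner_co R B B.x0 (k' i)
    rw [hT1, ← hk' i] at h1
    rw [← h1]
    simp only [_root_.sum_apply, inner_sum]
    rfl
  -- the squares
  have hcj : ∀ (n : ℕ) j, cj (fun v => u j v ^ n) = fun v => u j v ^ (-(n : ℤ)) := by
    intro n j
    ext v
    have h1 := Complex.mul_conj (u j v)
    rw [Complex.normSq_eq_norm_sq, hu j v] at h1
    have h2 : starRingEnd ℂ (u j v) = (u j v)⁻¹ := by
      refine eq_inv_of_mul_eq_one_right ?_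
      rw [h1]
      simp
    simp only [cj, map_pow, h2]
    rw [zpow_neg, zpow_natCast, inv_pow]
  have hsq : ∀ n : ℕ, ((∑ j, ‖R.T (fun v => u j v ^ n) (L.E (u j) R.e) - L.E (u j) R.e‖ ^ 2 : ℝ)) =
      ((2 * k' 0 B.x0 - k' n B.x0 - k' (-(n : ℤ)) B.x0 : ℤ) : ℝ) := by
    intro n
    have h1 : (((∑ j, ‖R.T (fun v => u j v ^ n) (L.E (u j) R.e) - L.E (u j) R.e‖ ^ 2 : ℝ)) : ℂ) =
        (((2 * k' 0 B.x0 - k' n B.x0 - k' (-(n : ℤ)) B.x0 : ℤ) : ℝ) : ℂ) := by
      have h2 : ∀ j, (((‖R.T (fun v => u j v ^ n) (L.E (u j) R.e) - L.E (u j) R.e‖ ^ 2 : ℝ)) : ℂ) =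
          2 * inner ℂ R.e (R.T (fun v => u j v ^ (0 : ℤ)) (L.E (u j) R.e)) -
            inner ℂ R.e (R.T (fun v => u j v ^ (n : ℤ)) (L.E (u j) R.e)) -
            inner ℂ R.e (R.T (fun v => u j v ^ (-(n : ℤ))) (L.E (u j) R.e)) := by
        intro j
        rw [AN4_quad R L (hu j) (AN3_uni_pow (hu j) n), hcj n j]
        have h3 : (fun v => u j v ^ (0 : ℤ)) = 1 := by
          ext v
          simp
        rw [h3, R.T_one]
        simp only [zpow_natCast]
        rfl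
      rw [Complex.ofReal_sum]
      rw [Finset.sum_congr rfl fun j _ => h2 j]
      rw [Finset.sum_sub_distrib, Finset.sum_sub_distrib, ← Finset.mul_sum, hint 0, hint n,
        hint (-(n : ℤ))]
      push_cast
      ring
    exact Complex.ofReal_injective h1
  -- the limit of the squares
  have hlim : Tendsto (fun n : ℕ =>
      ∑ j, ‖R.T (fun v => u j v ^ n) (L.E (u j) R.e) - L.E (u j) R.e‖ ^ 2) p (𝓝 0) := by
    have h1 : ∀ j, Tendsto (fun n : ℕ =>
        ‖R.T (fun v => u j v ^ n) (L.E (u j) R.e) - L.E (u j) R.e‖ ^ 2) p (𝓝 0) := by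
      intro j
      have h2 : Tendsto (fun n : ℕ =>
          (((‖R.T (fun v => u j v ^ n) (L.E (u j) R.e) - L.E (u j) R.e‖ ^ 2 : ℝ)) : ℂ)) p
            (𝓝 0) := by
        have h3 := L.tends (u j) (hu j) R.e (L.E (u j) R.e)
        rw [AN4_EE R L (hu j)] at h3
        have h4 := L.tends (u j) (hu j) (L.E (u j) R.e) R.e
        have h5 := (Complex.continuous_conj.tendsto _).comp h4
        have h6 : starRingEnd ℂ (inner ℂ (L.E (u j) R.e) (L.E (u j) R.e)) =
            inner ℂ R.e (L.E (u j) R.e) := by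
          rw [inner_conj_symm, L.adj (u j) (hu j), AN4_EE R L (hu j)]
        rw [h6] at h5
        have h7 : ∀ n : ℕ, inner ℂ R.e (R.T (cj fun v => u j v ^ n) (L.E (u j) R.e)) =
            starRingEnd ℂ (inner ℂ (L.E (u j) R.e) (R.T (fun v => u j v ^ n) R.e)) := by
          intro n
          rw [inner_conj_symm, R.T_adj _ (AN3_bd_uni (AN3_uni_pow (hu j) n))]
        have h8 := ((tendsto_const_nhds (x := 2 * inner ℂ R.e (L.E (u j) R.e))).sub h3).sub h5
        have h9 : 2 * inner ℂ R.e (L.E (u j) R.e) - inner ℂ R.e (L.E (u j) R.e) -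
            inner ℂ R.e (L.E (u j) R.e) = (0 : ℂ) := by ring
        rw [h9] at h8
        refine h8.congr fun n => ?_
        rw [AN4_quad R L (hu j) (AN3_uni_pow (hu j) n), h7]
        rfl
      have h10 := (Complex.continuous_re.tendsto _).comp h2
      rw [Complex.zero_re] at h10
      exact h10.congr fun n => Complex.ofReal_re _
    have h2 := tendsto_finsetSum Finset.univ fun j (_ : j ∈ Finset.univ) => h1 j
    simpa using h2
  -- conclusion
  have h1 : ∀ᶠ n : ℕ in p,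
      ∑ j, ‖R.T (fun v => u j v ^ n) (L.E (u j) R.e) - L.E (u j) R.e‖ ^ 2 < 1 :=
    hlim.eventually (gt_mem_nhds one_pos)
  obtain ⟨q, hq1, hq2⟩ := (h1.and (hp.1 1)).exists
  have hq3 : 1 ≤ q := hq2
  have h2 : ∑ j, ‖R.T (fun v => u j v ^ q) (L.E (u j) R.e) - L.E (u j) R.e‖ ^ 2 = 0 := by
    have h3 := hsq q
    have h4 : 0 ≤ ∑ j, ‖R.T (fun v => u j v ^ q) (L.E (u j) R.e) - L.E (u j) R.e‖ ^ 2 :=
      Finset.sum_nonneg fun j _ => by positivity
    rw [h3] at hq1 h4 ⊢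
    have h5 : (2 * k' 0 B.x0 - k' q B.x0 - k' (-(q : ℤ)) B.x0) < 1 := by exact_mod_cast hq1
    have h6 : 0 ≤ (2 * k' 0 B.x0 - k' q B.x0 - k' (-(q : ℤ)) B.x0) := by exact_mod_cast h4
    have h7 : (2 * k' 0 B.x0 - k' q B.x0 - k' (-(q : ℤ)) B.x0) = 0 := by omega
    rw [h7]
    simp
  refine ⟨q, hq3, fun j => ?_⟩
  have h3 : R.T (fun v => u j v ^ q) (L.E (u j) R.e) - L.E (u j) R.e = 0 := by
    have h4 := (Finset.sum_eq_zero_iff_of_nonneg fun j _ => by positivity).1 h2 j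
      (Finset.mem_univ j)
    have h5 : ‖R.T (fun v => u j v ^ q) (L.E (u j) R.e) - L.E (u j) R.e‖ = 0 := by
      simpa using h4
    exact norm_eq_zero.1 h5
  have hb : Bd (fun v => u j v ^ q) := AN3_bd_uni (AN3_uni_pow (hu j) q)
  refine AN3_ext R ?_ ?_ ?_
  · intro g hg
    rw [mul_assoc, sub_mul, one_mul, AN3_T_comm R hb hg, ← mul_assoc,
      L.comm (u j) (hu j) g hg, mul_assoc, mul_sub (R.T g), mul_one]
  · intro g hg
    simp
  · change L.E (u j) ((R.T (fun v => u j v ^ q) - 1) R.e) = 0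
    have h6 : (R.T (fun v => u j v ^ q) - 1) R.e = R.T (fun v => u j v ^ q) R.e - R.e := rfl
    rw [h6, map_sub, AN4_ET R L (hu j) hb]
    exact h3

end Pool.H66.S2
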