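import Pool.Agent.H66.S2.Basic

/-!
# Module ANA: the analysis
-/

set_option autoImplicit false

namespace Pool.H66.S2

open Filter Topology

theorem ANA_bd_one {V : Type} : Bd (1 : V → ℂ) := ⟨1, fun v => by simp⟩

theorem ANA_bd_add {V : Type} {f g : V → ℂ} (hf : Bd f) (hg : Bd g) : Bd (f + g) := by
  obtain ⟨C, hC⟩ := hf
  obtain ⟨D, hD⟩ := hg
  exact ⟨C + D, fun v => (norm_add_le _ _).trans (add_le_add (hC v) (hD v))⟩

theorem ANA_bd_mul {V : Type} {f g : V → ℂ} (hf : Bd f) (hg : Bd g) : Bd (f * g) := by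
  obtain ⟨C, hC⟩ := hf
  obtain ⟨D, hD⟩ := hg
  refine ⟨C * D, fun v => ?_⟩
  rw [Pi.mul_apply, norm_mul]
  exact mul_le_mul (hC v) (hD v) (norm_nonneg _) ((norm_nonneg _).trans (hC v))

theorem ANA_bd_pow {V : Type} {u : V → ℂ} (hu : Uni u) (q : ℕ) : Bd (fun v => u v ^ q) :=
  ⟨1, fun v => by rw [norm_pow, hu v, one_pow]⟩

theorem ANA_bd_co {V : Type} {μ : Mean V} {X : Type} (B : Basis' μ X) (k : X →₀ ℤ) :
    Bd (B.co k) := by
  choose C hC using B.bd
  refine ⟨∑ x ∈ k.support, ‖((k x : ℤ) : ℂ)‖ * C x, fun v => ?_⟩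
  unfold Basis'.co Finsupp.sum
  refine (norm_sum_le _ _).trans (Finset.sum_le_sum fun x _ => ?_)
  rw [norm_mul]
  exact mul_le_mul_of_nonneg_left (hC x v) (norm_nonneg _)

theorem s_ANA (h0 : S_AN0) (h1 : S_AN1) (h2 : S_AN2) (h3 : S_AN3) (h4 : S_AN4) : S_ANA := by
  classical
  intro V μ X B
  obtain ⟨p, hp⟩ := h0
  obtain ⟨R⟩ := h1 V μ
  obtain ⟨L⟩ := h2 V μ R p hp
  set S : Set (R.H →L[ℂ] R.H) := {t | (∃ f, Bd f ∧ t = R.T f) ∨ ∃ u, Uni u ∧ t = L.E u} with hS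
  have hcomm : ∀ x ∈ S, ∀ y ∈ S, x * y = y * x := by
    rintro x (⟨f, hf, rfl⟩ | ⟨u, hu, rfl⟩) y (⟨g, hg, rfl⟩ | ⟨w, hw, rfl⟩)
    · rw [← R.T_mul f g hf hg, ← R.T_mul g f hg hf, mul_comm]
    · exact L.comm w hw f hf
    · exact (L.comm u hu g hg).symm
    · exact L.comm' u w hu hw
  letI : CommRing (Subring.closure S) := Subring.closureCommRingOfComm hcomm
  have hM : ∀ f, Bd f → R.T f ∈ Subring.closure S := fun f hf =>
    Subring.subset_closure (Or.inl ⟨f, hf, rfl⟩)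
  have hE : ∀ u, Uni u → L.E u ∈ Subring.closure S := fun u hu =>
    Subring.subset_closure (Or.inr ⟨u, hu, rfl⟩)
  let M : (V → ℂ) → Subring.closure S := fun f => if h : Bd f then ⟨R.T f, hM f h⟩ else 0
  let E : (V → ℂ) → Subring.closure S := fun u => if h : Uni u then ⟨L.E u, hE u h⟩ else 0
  have M_eq : ∀ f (h : Bd f), M f = ⟨R.T f, hM f h⟩ := fun f h => dif_pos h
  have E_eq : ∀ u (h : Uni u), E u = ⟨L.E u, hE u h⟩ := fun u h => dif_pos h
  have M_co : ∀ f (h : Bd f), ((M f : Subring.closure S) : R.H →L[ℂ] R.H) = R.T f :=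
    fun f h => by rw [M_eq f h]
  have E_co : ∀ u (h : Uni u), ((E u : Subring.closure S) : R.H →L[ℂ] R.H) = L.E u :=
    fun u h => by rw [E_eq u h]
  refine ⟨{ Q := Subring.closure S, M := M, E := E, M_one := ?_, M_add := ?_, M_mul := ?_,
            M_zero := ?_, E_one := ?_, E_idem := ?_, lim := ?_, per := ?_ }⟩
  · apply Subtype.ext
    rw [M_co 1 ANA_bd_one, R.T_one]
    rfl
  · intro f g hf hg
    apply Subtype.ext
    rw [M_co _ (ANA_bd_add hf hg), R.T_add f g hf hg, ← M_co f hf, ← M_co g hg]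
    rfl
  · intro f g hf hg
    apply Subtype.ext
    rw [M_co _ (ANA_bd_mul hf hg), R.T_mul f g hf hg, ← M_co f hf, ← M_co g hg]
    rfl
  · intro f hf h
    have h5 : R.T f = 0 := by
      rw [← M_co f hf, h]
      rfl
    have h6 := R.inner_e f f hf hf
    rw [h5] at h6
    rw [mul_comm, ← h6]
    simp
  · apply Subtype.ext
    rw [E_co 1 (fun v => by simp), L.one]
    rfl
  · intro u hu
    apply Subtype.ext
    have := L.idem u hu
    rw [← E_co u hu] at this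
    exact this
  · intro ι _ f u hf hu k hk
    obtain ⟨k', hk'⟩ := h3 V μ R p hp L X B ι f u hf hu k (by
      filter_upwards [hp.1 1] with n hn
      exact hk n hn)
    refine ⟨k', ?_⟩
    apply Subtype.ext
    rw [M_co _ (ANA_bd_co B k'), ← hk']
    rw [AddSubmonoidClass.coe_finsetSum]
    refine Finset.sum_congr rfl fun j _ => ?_
    rw [← M_co _ (hf j), ← E_co _ (hu j)]
    rfl
  · intro ι _ u hu k hk
    obtain ⟨q, hq, h⟩ := h4 V μ R p hp L X B ι u hu k hk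
    refine ⟨q, hq, fun j => ?_⟩
    apply Subtype.ext
    have h7 := h j
    rw [← E_co _ (hu j), ← M_co _ (ANA_bd_pow (hu j) q)] at h7
    exact h7

end Pool.H66.S2
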