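import Pool.Agent.H66.S2.Basic

/-!
# Module COL: a full column is the determinant
-/

namespace Pool.H66.S2

open Filter Topology

/-- `hs k` is continuous in the variables. -/
theorem COL_hs_cont {m : ℕ} (k : ℕ) :
    Continuous fun c : Fin m → ℂ => hs k (Finset.univ.val.map c) := by
  classical
  have h : (fun c : Fin m → ℂ => hs k (Finset.univ.val.map c)) = fun c =>
      ∑ l ∈ Finset.finsuppAntidiag Finset.univ k, ∏ i, c i ^ (l i) := by
    ext c
    unfold hs
    rw [Multiset.map_map]
    have h2 : (Multiset.map ((fun a => (PowerSeries.mk fun n => a ^ n : PowerSeries ℂ)) ∘ c)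
        Finset.univ.val).prod = ∏ i, (PowerSeries.mk fun n => (c i) ^ n : PowerSeries ℂ) := rfl
    rw [h2, PowerSeries.coeff_prod]
    simp
  rw [h]
  fun_prop

/-- Schur functions are continuous in the variables. -/
theorem COL_schur_cont {m r : ℕ} (lam : Fin r → ℕ) :
    Continuous fun c : Fin m → ℂ => schur lam (Finset.univ.val.map c) := by
  unfold schur JT
  refine Continuous.matrix_det ?_
  refine continuous_matrix fun i j => ?_
  simp only [Matrix.of_apply, sz]
  split_ifs
  · exact COL_hs_cont _
  · exact continuous_const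

theorem s_COL (hJTB : S_JTB) : S_COL := by
  intro m c lam
  -- the case of distinct entries
  have h1 : ∀ c : Fin m → ℂ, Function.Injective c →
      schur (fun j => lam j + 1) (Finset.univ.val.map c) =
        (∏ j, c j) * schur lam (Finset.univ.val.map c) := by
    intro c hc
    have hV : (Matrix.of fun i j : Fin m => c i ^ (m - 1 - (j : ℕ))).det ≠ 0 := by
      have h2 : (Matrix.of fun i j : Fin m => c i ^ (m - 1 - (j : ℕ))) =
          (Matrix.vandermonde c).submatrix id Fin.revPerm := by
        ext i j
        simp only [Matrix.of_apply, Matrix.submatrix_apply, id, Matrix.vandermonde_apply,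
          Fin.revPerm_apply, Fin.val_rev]
        congr 1
        omega
      rw [h2, Matrix.det_permute']
      refine mul_ne_zero ?_ (Matrix.det_vandermonde_ne_zero_iff.2 hc)
      rcases Int.units_eq_one_or (Equiv.Perm.sign (Fin.revPerm (n := m))) with h | h <;> simp [h]
    have e1 := hJTB m c lam
    have e2 := hJTB m c (fun j => lam j + 1)
    have e3 : (Matrix.of fun i j : Fin m => c i ^ (lam j + 1 + (m - 1 - (j : ℕ)))).det =
        (∏ i, c i) * (Matrix.of fun i j : Fin m => c i ^ (lam j + (m - 1 - (j : ℕ)))).det := by
      rw [← Matrix.det_mul_column]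
      congr 1
      ext i j
      simp only [Matrix.of_apply]
      rw [show lam j + 1 + (m - 1 - (j : ℕ)) = (lam j + (m - 1 - (j : ℕ))) + 1 by ring, pow_succ,
        mul_comm]
    have e4 : schur (fun j => lam j + 1) (Finset.univ.val.map c) *
        (Matrix.of fun i j : Fin m => c i ^ (m - 1 - (j : ℕ))).det =
        (∏ j, c j) * schur lam (Finset.univ.val.map c) *
        (Matrix.of fun i j : Fin m => c i ^ (m - 1 - (j : ℕ))).det := by
      rw [← e2, e3, e1, mul_assoc]
    exact mul_right_cancel₀ hV e4
  -- density
  have h2 : ∀ᶠ t : ℂ in 𝓝[≠] 0, Function.Injective fun j : Fin m => c j + t * (j : ℕ) := by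
    have h3 : ∀ᶠ t : ℂ in 𝓝[≠] 0, ∀ i j : Fin m, i ≠ j →
        c i + t * (i : ℕ) ≠ c j + t * (j : ℕ) := by
      refine eventually_all.2 fun i => eventually_all.2 fun j => ?_
      by_cases hij : i = j
      · exact Eventually.of_forall fun t h => absurd hij h
      · by_cases hc : c i = c j
        · filter_upwards [self_mem_nhdsWithin] with t ht _ h
          have ht' : t ≠ 0 := ht
          rw [hc, add_right_inj] at h
          have h4 := mul_left_cancel₀ ht' h
          exact hij (Fin.ext (by exact_mod_cast h4))
        · have h5 : ∀ᶠ t : ℂ in 𝓝 0, c i + t * (i : ℕ) - (c j + t * (j : ℕ)) ≠ 0 := by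
            have h6 : Continuous fun t : ℂ => c i + t * (i : ℕ) - (c j + t * (j : ℕ)) := by
              fun_prop
            refine h6.continuousAt.eventually_ne ?_
            simpa [sub_eq_zero] using hc
          filter_upwards [nhdsWithin_le_nhds h5] with t ht _
          exact sub_ne_zero.1 ht
    filter_upwards [h3] with t ht i j hij
    by_contra h
    exact ht i j h hij
  have hcont : Continuous fun t : ℂ => fun j : Fin m => c j + t * (j : ℕ) := by
    fun_prop
  have hl : Tendsto (fun t : ℂ => schur (fun j => lam j + 1)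
      (Finset.univ.val.map fun j : Fin m => c j + t * (j : ℕ))) (𝓝[≠] 0)
      (𝓝 (schur (fun j => lam j + 1) (Finset.univ.val.map c))) := by
    have h8 : Continuous fun t : ℂ => schur (fun j => lam j + 1)
        (Finset.univ.val.map fun j : Fin m => c j + t * (j : ℕ)) :=
      (COL_schur_cont (m := m) fun j : Fin m => lam j + 1).comp hcont
    have h9 := h8.tendsto 0
    have h10 : (fun j : Fin m => c j + (0 : ℂ) * (j : ℕ)) = c := by
      ext j
      simp
    rw [h10] at h9
    exact h9.mono_left nhdsWithin_le_nhds
  have hr : Tendsto (fun t : ℂ => (∏ j : Fin m, (c j + t * (j : ℕ))) * schur lam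
      (Finset.univ.val.map fun j : Fin m => c j + t * (j : ℕ))) (𝓝[≠] 0)
      (𝓝 ((∏ j, c j) * schur lam (Finset.univ.val.map c))) := by
    have h7 : Continuous fun t : ℂ => ∏ j : Fin m, (c j + t * (j : ℕ)) := by fun_prop
    have h8 : Continuous fun t : ℂ => schur lam
        (Finset.univ.val.map fun j : Fin m => c j + t * (j : ℕ)) :=
      (COL_schur_cont (m := m) lam).comp hcont
    have h9 := h8.tendsto 0
    have h12 := h7.tendsto 0
    have h10 : (fun j : Fin m => c j + (0 : ℂ) * (j : ℕ)) = c := by
      ext j
      simp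
    have h11 : (∏ j : Fin m, (c j + (0 : ℂ) * (j : ℕ))) = ∏ j, c j := by simp
    rw [h10] at h9
    rw [h11] at h12
    exact (h12.mul h9).mono_left nhdsWithin_le_nhds
  refine tendsto_nhds_unique hl (hr.congr' ?_)
  filter_upwards [h2] with t ht
  exact (h1 _ ht).symm

end Pool.H66.S2
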