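import Pool.Agent.H66.S2.Basic

/-!
DIM: a bound for the dimension of `S_nu`.
-/

namespace Pool.H66.S2

open Filter Topology

theorem DIM_hs (h : S_HSB) (m : ℕ) : ∀ k : ℕ, ‖hs k (Multiset.replicate m (1 : ℂ))‖ ≤ (m : ℝ) ^ k := by
  obtain ⟨h0, h1, _, h2, _⟩ := h
  induction m with
  | zero =>
    intro k
    cases k with
    | zero => rw [h0]; simp
    | succ k => rw [Multiset.replicate_zero, h1]; simp
  | succ m ihm =>
    intro k
    induction k with
    | zero => rw [h0]; simp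
    | succ k ihk =>
      rw [Multiset.replicate_succ, h2, one_mul]
      have h3 := ihm (k + 1)
      rw [Multiset.replicate_succ] at ihk
      have h4 : (m : ℝ) ^ k ≤ ((m + 1 : ℕ) : ℝ) ^ k :=
        pow_le_pow_left₀ (Nat.cast_nonneg m) (by exact_mod_cast Nat.le_succ m) k
      have h5 : (m : ℝ) ^ (k + 1) ≤ ((m + 1 : ℕ) : ℝ) ^ k * m := by
        rw [pow_succ]
        exact mul_le_mul_of_nonneg_right h4 (Nat.cast_nonneg m)
      calc _ ≤ ‖hs (k + 1) (Multiset.replicate m (1 : ℂ))‖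
            + ‖hs k (1 ::ₘ Multiset.replicate m (1 : ℂ))‖ := norm_add_le _ _
        _ ≤ ((m + 1 : ℕ) : ℝ) ^ k * m + ((m + 1 : ℕ) : ℝ) ^ k := add_le_add (h3.trans h5) ihk
        _ = ((m + 1 : ℕ) : ℝ) ^ (k + 1) := by
          push_cast
          ring

theorem s_DIM (hHSB : S_HSB) : S_DIM := by
  intro m nu hm _
  have hm0 : (0 : ℝ) < m := by
    have : 0 < m := by omega
    exact_mod_cast this
  have hX : (Finset.univ.val.map fun _ : Fin m => (1 : ℂ)) = Multiset.replicate m 1 := by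
    rw [Multiset.map_const', Finset.card_val, Finset.card_univ, Fintype.card_fin]
  rw [hX]
  unfold schur JT
  rw [Matrix.det_apply]
  have hsz : ∀ n : ℤ, ‖sz (fun k => hs k (Multiset.replicate m (1 : ℂ))) n‖ ≤ (m : ℝ) ^ n := by
    intro n
    unfold sz
    by_cases hn : 0 ≤ n
    · rw [if_pos hn]
      have h1 := DIM_hs hHSB m n.toNat
      have h2 : (m : ℝ) ^ n = (m : ℝ) ^ n.toNat := by
        conv_lhs => rw [← Int.toNat_of_nonneg hn]
        rw [zpow_natCast]
      rw [h2]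
      exact h1
    · rw [if_neg hn, norm_zero]
      positivity
  have hprod : ∀ (S : Finset (Fin m)) (e : Fin m → ℤ), ∏ i ∈ S, (m : ℝ) ^ (e i)
      = (m : ℝ) ^ (∑ i ∈ S, e i) := by
    intro S e
    classical
    induction S using Finset.induction_on with
    | empty => simp
    | insert a S ha ih => rw [Finset.prod_insert ha, Finset.sum_insert ha, zpow_add₀ hm0.ne', ih]
  have hterm : ∀ σ : Equiv.Perm (Fin m),
      ‖Equiv.Perm.sign σ • ∏ i, (Matrix.of fun i j : Fin m =>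
        sz (fun k => hs k (Multiset.replicate m (1 : ℂ))) ((nu i : ℤ) - (i : ℤ) + (j : ℤ))) (σ i) i‖
        ≤ (m : ℝ) ^ (∑ j, nu j) := by
    intro σ
    have h1 : ‖Equiv.Perm.sign σ • ∏ i, (Matrix.of fun i j : Fin m =>
        sz (fun k => hs k (Multiset.replicate m (1 : ℂ))) ((nu i : ℤ) - (i : ℤ) + (j : ℤ))) (σ i) i‖
        = ‖∏ i, (Matrix.of fun i j : Fin m =>
        sz (fun k => hs k (Multiset.replicate m (1 : ℂ))) ((nu i : ℤ) - (i : ℤ) + (j : ℤ))) (σ i) i‖ := by
      rcases Int.units_eq_one_or (Equiv.Perm.sign σ) with h | h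
      · rw [h, one_smul]
      · rw [h, Units.neg_smul, one_smul, norm_neg]
    rw [h1, norm_prod]
    have h2 : ∏ i, ‖(Matrix.of fun i j : Fin m =>
        sz (fun k => hs k (Multiset.replicate m (1 : ℂ))) ((nu i : ℤ) - (i : ℤ) + (j : ℤ))) (σ i) i‖
        ≤ ∏ i, (m : ℝ) ^ ((nu (σ i) : ℤ) - ((σ i : Fin m) : ℤ) + (i : ℤ)) :=
      Finset.prod_le_prod (fun _ _ => norm_nonneg _) fun i _ => hsz _
    refine h2.trans ?_
    rw [hprod]
    have h3 : ∑ i, ((nu (σ i) : ℤ) - ((σ i : Fin m) : ℤ) + (i : ℤ)) = ((∑ j, nu j : ℕ) : ℤ) := by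
      rw [Finset.sum_add_distrib, Finset.sum_sub_distrib,
        Equiv.sum_comp σ (fun i => ((nu i : ℕ) : ℤ)), Equiv.sum_comp σ (fun i => ((i : Fin m) : ℤ))]
      push_cast
      ring
    rw [h3, zpow_natCast]
  refine (norm_sum_le _ _).trans ((Finset.sum_le_sum fun σ _ => hterm σ).trans ?_)
  rw [Finset.sum_const, Finset.card_univ, Fintype.card_perm, Fintype.card_fin, nsmul_eq_mul,
    pow_add, mul_comm]
  refine mul_le_mul_of_nonneg_left ?_ (by positivity)
  exact_mod_cast Nat.factorial_le_pow m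

end Pool.H66.S2
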