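import Pool.Agent.H66.S2.Basic

/-!
# Board t5, module EXP: exponents
-/

namespace Pool.H66.S2

open Filter Topology

theorem EXP_norm (hBAS : S_BAS) (A : Aut) (σ : A.Cusp) (v : A.Pl) (g : A.W v) :
    ‖(A.eig σ ⟨v, g, 1⟩).prod‖ = A.ab v g ^ (A.expo σ * A.deg σ) := by
  obtain ⟨hcard, hne, -, -, -, -, -, -, hherm, -⟩ := hBAS A
  have hab := A.ab_pos v g
  set X := A.eig σ ⟨v, g, 1⟩ with hX
  set c : ℝ := A.ab v g ^ (2 * A.expo σ) with hc
  have hcpos : 0 < c := Real.rpow_pos_of_pos hab _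
  have h1 := congrArg Multiset.prod (hherm σ v g)
  rw [← hX] at h1
  have h2 : (X.map (starRingEnd ℂ)).prod = (starRingEnd ℂ) X.prod :=
    (map_multiset_prod (starRingEnd ℂ) X).symm
  have h3 : (X.map fun a => ((c : ℝ) : ℂ) / a).prod = ((c : ℝ) : ℂ) ^ X.card / X.prod := by
    rw [Multiset.prod_map_div]
    congr 1
    · rw [Multiset.map_const', Multiset.prod_replicate]
    · rw [Multiset.map_id']
  rw [h2, h3] at h1
  have hcd : X.card = A.deg σ := hcard σ _
  have h0 : X.prod ≠ 0 := Multiset.prod_ne_zero (hne σ _)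
  have h4 : ‖X.prod‖ * ‖X.prod‖ = c ^ A.deg σ := by
    have e := congrArg norm h1
    rw [norm_div, norm_pow, Complex.norm_real, Real.norm_of_nonneg hcpos.le, hcd,
      RCLike.norm_conj] at e
    rw [eq_div_iff (norm_ne_zero_iff.2 h0)] at e
    exact e
  have h5 : (A.ab v g ^ (A.expo σ * A.deg σ)) * (A.ab v g ^ (A.expo σ * A.deg σ)) =
      c ^ A.deg σ := by
    rw [hc, ← Real.rpow_natCast, ← Real.rpow_mul hab.le, ← Real.rpow_add hab]
    congr 1
    ring
  have hp : 0 < A.ab v g ^ (A.expo σ * A.deg σ) := Real.rpow_pos_of_pos hab _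
  exact mul_self_injective_of_nonneg' (norm_nonneg _) hp.le (h4.trans h5.symm)
where
  mul_self_injective_of_nonneg' {a b : ℝ} (ha : 0 ≤ a) (hb : 0 ≤ b) (h : a * a = b * b) :
      a = b := by
    rcases mul_self_eq_mul_self_iff.1 h with h | h
    · exact h
    · linarith

theorem EXP_inj {r x y : ℝ} (h0 : 0 < r) (h1 : r < 1) (h : r ^ x = r ^ y) : x = y := by
  have := congrArg Real.log h
  rw [Real.log_rpow h0, Real.log_rpow h0] at this
  exact mul_right_cancel₀ (Real.log_neg h0 h1).ne this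

theorem s_EXP (hBAS : S_BAS) : S_EXP := by
  intro A
  have hn := EXP_norm hBAS A
  obtain ⟨hcard, hne, -, hone, hdual, hmul, -, hnrm, -⟩ := hBAS A
  have v := A.inf
  have hpos := A.ab_pos v (A.Fr v)
  have hlt := A.Fr_lt v
  refine ⟨?_, ?_, ?_, hn⟩
  · have h1 := hn A.one v (A.Fr v)
    rw [hone, Multiset.prod_singleton, norm_one, A.deg_one] at h1
    have h2 : A.ab v (A.Fr v) ^ (0:ℝ) = A.ab v (A.Fr v) ^ (A.expo A.one * ((1:ℕ):ℝ)) := by
      rw [Real.rpow_zero]; exact h1
    have := EXP_inj hpos hlt h2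
    simpa using this.symm
  · intro σ
    have h1 := hn (A.dual σ) v (A.Fr v)
    have h2 := hn σ v (A.Fr v)
    rw [hdual, Multiset.prod_map_inv', norm_inv, h2, ← Real.rpow_neg hpos.le, A.deg_dual] at h1
    have h3 := EXP_inj hpos hlt h1
    have hd : (0:ℝ) < A.deg σ := by exact_mod_cast A.deg_pos σ
    have h4 : (A.expo (A.dual σ) + A.expo σ) * A.deg σ = 0 := by linarith
    rcases mul_eq_zero.1 h4 with h | h
    · linarith
    · exact absurd h hd.ne'
  · intro y σ
    have h1 := hn (A.mul (A.nrm y) σ) v (A.Fr v)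
    have h2 := hn σ v (A.Fr v)
    have ht : A.tr (A.nrm y) ⟨v, A.Fr v, 1⟩ = ((A.ab v (A.Fr v) ^ y : ℝ) : ℂ) := by
      unfold AData.tr
      rw [hnrm, Multiset.sum_singleton]
    rw [hmul _ _ _ (A.deg_nrm y), ht, Multiset.prod_map_mul, Multiset.map_const',
      Multiset.prod_replicate, Multiset.map_id', hcard, norm_mul, norm_pow, Complex.norm_real,
      Real.norm_of_nonneg (Real.rpow_pos_of_pos hpos y).le, h2, A.deg_mul _ _ (A.deg_nrm y),
      ← Real.rpow_natCast, ← Real.rpow_mul hpos.le, ← Real.rpow_add hpos] at h1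
    have h3 := EXP_inj hpos hlt h1
    have hd : (0:ℝ) < A.deg σ := by exact_mod_cast A.deg_pos σ
    have h4 : (A.expo (A.mul (A.nrm y) σ) - (A.expo σ + y)) * A.deg σ = 0 := by linarith
    rcases mul_eq_zero.1 h4 with h | h
    · linarith
    · exact absurd h hd.ne'

end Pool.H66.S2
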