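import Pool.Agent.H66.S2.Basic

/-!
# Project T5, module FTS: the fundamental theorem for the complete symmetric functions
-/

set_option autoImplicit false

namespace Pool.H66.S2

section series

theorem FTS_geom (a : ℂ) : (PowerSeries.mk fun n => a ^ n : PowerSeries ℂ) *
    (1 - PowerSeries.C a * PowerSeries.X) = 1 := by
  ext n
  rw [mul_sub, mul_one, ← mul_assoc, map_sub]
  cases n with
  | zero => simp
  | succ n =>
    rw [PowerSeries.coeff_succ_mul_X, PowerSeries.coeff_mul_C, PowerSeries.coeff_mk,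
      PowerSeries.coeff_mk, PowerSeries.coeff_one, if_neg (Nat.succ_ne_zero n)]
    ring

theorem FTS_inv (X : Multiset ℂ) :
    (X.map fun a => (PowerSeries.mk fun n => a ^ n : PowerSeries ℂ)).prod *
      (X.map fun a => (1 - PowerSeries.C a * PowerSeries.X : PowerSeries ℂ)).prod = 1 := by
  rw [← Multiset.prod_map_mul]
  simp only [FTS_geom]
  simp

theorem FTS_esymm_cons (a : ℂ) (X : Multiset ℂ) (k : ℕ) :
    (a ::ₘ X).esymm (k + 1) = X.esymm (k + 1) + a * X.esymm k := by
  unfold Multiset.esymm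
  rw [Multiset.powersetCard_cons, Multiset.map_add, Multiset.sum_add, Multiset.map_map]
  congr 1
  rw [← Multiset.sum_map_mul_left]
  congr 1
  refine Multiset.map_congr rfl fun b _ => ?_
  simp

theorem FTS_es (X : Multiset ℂ) : ∀ k, PowerSeries.coeff k
    (X.map fun a => (1 - PowerSeries.C a * PowerSeries.X : PowerSeries ℂ)).prod =
      (-1) ^ k * X.esymm k := by
  induction X using Multiset.induction_on with
  | empty =>
    intro k
    cases k with
    | zero => simp [Multiset.esymm]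
    | succ k => simp [Multiset.esymm, PowerSeries.coeff_one, Multiset.powersetCard_zero_right]
  | cons a X ih =>
    intro k
    rw [Multiset.map_cons, Multiset.prod_cons, sub_mul, one_mul, map_sub, mul_assoc,
      PowerSeries.coeff_C_mul, ih]
    cases k with
    | zero =>
      rw [PowerSeries.coeff_zero_X_mul]
      simp [Multiset.esymm]
    | succ k =>
      rw [PowerSeries.coeff_succ_X_mul, ih, FTS_esymm_cons]
      ring

theorem FTS_rel (X : Multiset ℂ) (k : ℕ) : X.esymm (k + 1) =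
    ∑ p ∈ Finset.HasAntidiagonal.antidiagonal k, (-1) ^ (k + p.2) * (hs (p.1 + 1) X * X.esymm p.2) := by
  have h := congrArg (PowerSeries.coeff (k + 1)) (FTS_inv X)
  rw [PowerSeries.coeff_mul, Finset.Nat.sum_antidiagonal_succ, PowerSeries.coeff_one,
    if_neg (Nat.succ_ne_zero k)] at h
  simp only [FTS_es] at h
  have h0 : PowerSeries.coeff 0 (X.map fun a =>
      (PowerSeries.mk fun n => a ^ n : PowerSeries ℂ)).prod = 1 := by
    have h1 := congrArg (PowerSeries.coeff 0) (FTS_inv X)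
    have h1' := FTS_es X 0
    rw [PowerSeries.coeff_zero_eq_constantCoeff_apply] at h1 h1' ⊢
    rw [map_mul, h1'] at h1
    simpa [Multiset.esymm] using h1
  rw [h0, one_mul] at h
  have h2 : (-1 : ℂ) ^ k * (-1) ^ k = 1 := by
    rw [← mul_pow]
    simp
  have h3 : X.esymm (k + 1) = (-1) ^ k * ∑ p ∈ Finset.HasAntidiagonal.antidiagonal k,
      hs (p.1 + 1) X * ((-1) ^ p.2 * X.esymm p.2) := by
    have h4 := eq_neg_of_add_eq_zero_right h
    unfold hs
    rw [h4, pow_succ]
    linear_combination (-X.esymm (k + 1)) * h2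
  rw [h3, Finset.mul_sum]
  refine Finset.sum_congr rfl fun p _ => ?_
  rw [pow_add]
  ring

end series

section ring

variable {m : ℕ}

/-- products of complete symmetric functions -/
noncomputable def FTS_f (l : List ℕ) (c : Fin m → ℂ) : ℂ :=
  (l.map fun k => hs k (Finset.univ.val.map c)).prod

variable (m) in
/-- the graded ring -/
noncomputable def FTS_A (D : ℕ) : AddSubgroup ((Fin m → ℂ) → ℂ) :=
  AddSubgroup.closure ((FTS_f (m := m)) '' {l | l.sum = D})

theorem FTS_gen (l : List ℕ) : FTS_f l ∈ FTS_A m l.sum :=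
  AddSubgroup.subset_closure ⟨l, rfl, rfl⟩

theorem FTS_mul {D D' : ℕ} {F G : (Fin m → ℂ) → ℂ} (hF : F ∈ FTS_A m D) (hG : G ∈ FTS_A m D') :
    F * G ∈ FTS_A m (D + D') := by
  refine AddSubgroup.closure_induction (p := fun F _ => F * G ∈ FTS_A m (D + D'))
    ?_ ?_ ?_ ?_ hF
  · rintro _ ⟨l, hl, rfl⟩
    refine AddSubgroup.closure_induction (p := fun G _ => FTS_f l * G ∈ FTS_A m (D + D'))
      ?_ ?_ ?_ ?_ hG
    · rintro _ ⟨l', hl', rfl⟩
      have h1 : FTS_f (m := m) l * FTS_f l' = FTS_f (l ++ l') := by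
        ext c
        simp [FTS_f]
      rw [h1]
      refine AddSubgroup.subset_closure ⟨l ++ l', ?_, rfl⟩
      rw [Set.mem_ofPred_eq] at hl hl' ⊢
      rw [List.sum_append, hl, hl']
    · rw [mul_zero]
      exact AddSubgroup.zero_mem _
    · intro x y _ _ hx hy
      rw [mul_add]
      exact AddSubgroup.add_mem _ hx hy
    · intro x _ hx
      rw [mul_neg]
      exact AddSubgroup.neg_mem _ hx
  · rw [zero_mul]
    exact AddSubgroup.zero_mem _
  · intro x y _ _ hx hy
    rw [add_mul]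
    exact AddSubgroup.add_mem _ hx hy
  · intro x _ hx
    rw [neg_mul]
    exact AddSubgroup.neg_mem _ hx

theorem FTS_one : (1 : (Fin m → ℂ) → ℂ) ∈ FTS_A m 0 := by
  have h : (1 : (Fin m → ℂ) → ℂ) = FTS_f [] := by
    ext c
    simp [FTS_f]
  rw [h]
  exact FTS_gen []

theorem FTS_pow {D : ℕ} {F : (Fin m → ℂ) → ℂ} (hF : F ∈ FTS_A m D) (n : ℕ) :
    F ^ n ∈ FTS_A m (D * n) := by
  induction n with
  | zero =>
    rw [pow_zero, Nat.mul_zero]
    exact FTS_one
  | succ n ih =>
    rw [pow_succ, Nat.mul_succ]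
    exact FTS_mul ih hF

theorem FTS_prod {ι : Type} (s : Finset ι) (F : ι → (Fin m → ℂ) → ℂ) (d : ι → ℕ)
    (h : ∀ i, F i ∈ FTS_A m (d i)) : ∏ i ∈ s, F i ∈ FTS_A m (∑ i ∈ s, d i) := by
  classical
  induction s using Finset.induction_on with
  | empty =>
    rw [Finset.prod_empty, Finset.sum_empty]
    exact FTS_one
  | insert i s hi ih =>
    rw [Finset.prod_insert hi, Finset.sum_insert hi]
    exact FTS_mul (h i) ih

/-- elementary symmetric functions -/
noncomputable def FTS_E (k : ℕ) (c : Fin m → ℂ) : ℂ := (Finset.univ.val.map c).esymm k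

theorem FTS_E_mem (k : ℕ) : FTS_E (m := m) k ∈ FTS_A m k := by
  induction k using Nat.strong_induction_on with
  | _ k ih =>
    cases k with
    | zero =>
      have h : FTS_E (m := m) 0 = 1 := by
        ext c
        simp [FTS_E, Multiset.esymm]
      rw [h]
      exact FTS_one
    | succ k =>
      have h : FTS_E (m := m) (k + 1) = ∑ p ∈ Finset.HasAntidiagonal.antidiagonal k,
          ((-1 : ℤ) ^ (k + p.2)) • (FTS_f [p.1 + 1] * FTS_E p.2) := by
        ext c
        unfold FTS_E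
        rw [FTS_rel, Finset.sum_apply]
        refine Finset.sum_congr rfl fun p _ => ?_
        simp [FTS_f]
      rw [h]
      refine AddSubgroup.sum_mem _ fun p hp => AddSubgroup.zsmul_mem _ ?_ _
      have hp' := Finset.HasAntidiagonal.mem_antidiagonal.1 hp
      have h1 := FTS_mul (FTS_gen (m := m) [p.1 + 1]) (ih p.2 (by omega))
      have h2 : [p.1 + 1].sum + p.2 = k + 1 := by
        rw [List.sum_singleton]
        omega
      rwa [h2] at h1

theorem FTS_fin {D : ℕ} {F : (Fin m → ℂ) → ℂ} (hF : F ∈ FTS_A m D) :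
    ∃ ψ : List ℕ →₀ ℤ, (∀ l ∈ ψ.support, l.sum = D) ∧
      ∀ c : Fin m → ℂ, F c = ψ.sum fun l n => (n : ℂ) * FTS_f l c := by
  classical
  refine AddSubgroup.closure_induction (p := fun F _ => ∃ ψ : List ℕ →₀ ℤ,
    (∀ l ∈ ψ.support, l.sum = D) ∧
      ∀ c : Fin m → ℂ, F c = ψ.sum fun l n => (n : ℂ) * FTS_f l c) ?_ ?_ ?_ ?_ hF
  · rintro _ ⟨l, hl, rfl⟩
    refine ⟨Finsupp.single l 1, ?_, ?_⟩
    · intro w hw
      have := Finsupp.support_single_subset hw
      rw [Finset.mem_singleton] at this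
      rw [this]
      exact hl
    · intro c
      simp
  · exact ⟨0, by simp, by intro c; simp⟩
  · rintro _ _ _ _ ⟨k, hk, hk'⟩ ⟨l, hl, hl'⟩
    refine ⟨k + l, ?_, ?_⟩
    · intro z hz
      rcases Finset.mem_union.1 (Finsupp.support_add hz) with h | h
      exacts [hk z h, hl z h]
    · intro c
      rw [Pi.add_apply, hk', hl', Finsupp.sum_add_index']
      · simp
      · intro a k l
        push_cast
        ring
  · rintro _ _ ⟨k, hk, hk'⟩
    refine ⟨-k, ?_, ?_⟩
    · intro z hz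
      exact hk z (by simpa using hz)
    · intro c
      rw [Pi.neg_apply, hk', Finsupp.sum_neg_index (by simp)]
      simp [Finsupp.sum]

end ring

section poly

variable {m : ℕ}

/-- exponents as natural numbers -/
noncomputable def FTS_n (a : Fin m → ℤ) : Fin m →₀ ℕ :=
  Finsupp.equivFunOnFinite.symm fun j => (a j).toNat

/-- the polynomial of a combination of monomials -/
noncomputable def FTS_p (φ : (Fin m → ℤ) →₀ ℤ) : MvPolynomial (Fin m) ℤ :=
  ∑ a ∈ φ.support, MvPolynomial.monomial (FTS_n a) (φ a)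

theorem FTS_coeff (φ : (Fin m → ℤ) →₀ ℤ) (hφ : ∀ a ∈ φ.support, ∀ j, 0 ≤ a j)
    (d : Fin m →₀ ℕ) : MvPolynomial.coeff d (FTS_p φ) = φ (fun j => (d j : ℤ)) := by
  classical
  unfold FTS_p
  rw [MvPolynomial.coeff_sum]
  have h : ∀ a ∈ φ.support, MvPolynomial.coeff d (MvPolynomial.monomial (FTS_n a) (φ a)) =
      if a = (fun j => (d j : ℤ)) then φ a else 0 := by
    intro a ha
    rw [MvPolynomial.coeff_monomial]
    have e : FTS_n a = d ↔ a = (fun j => (d j : ℤ)) := by
      constructor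
      · intro h
        ext j
        have h1 := DFunLike.congr_fun h j
        unfold FTS_n at h1
        rw [Finsupp.equivFunOnFinite_symm_apply_apply] at h1
        have h2 := hφ a ha j
        omega
      · intro h
        ext j
        unfold FTS_n
        rw [Finsupp.equivFunOnFinite_symm_apply_apply, h]
        simp
    simp only [e]
  rw [Finset.sum_congr rfl h, Finset.sum_ite_eq']
  split_ifs with h1
  · rfl
  · rw [Finsupp.notMem_support_iff] at h1
    exact h1.symm

theorem FTS_aeval (φ : (Fin m → ℤ) →₀ ℤ) (hφ : ∀ a ∈ φ.support, ∀ j, 0 ≤ a j)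
    (c : Fin m → ℂ) : MvPolynomial.aeval c (FTS_p φ) = ev φ c := by
  unfold FTS_p ev Finsupp.sum
  rw [map_sum]
  refine Finset.sum_congr rfl fun a ha => ?_
  rw [MvPolynomial.aeval_monomial, Finsupp.prod_fintype _ _ (fun i => pow_zero _)]
  congr 1
  unfold mon FTS_n
  refine Finset.prod_congr rfl fun j _ => ?_
  rw [Finsupp.equivFunOnFinite_symm_apply_apply]
  have h2 := hφ a ha j
  conv_rhs => rw [← Int.toNat_of_nonneg h2, zpow_natCast]

theorem FTS_hom (φ : (Fin m → ℤ) →₀ ℤ) (D : ℕ)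
    (hφ : ∀ a ∈ φ.support, (∀ j, 0 ≤ a j) ∧ ∑ j, a j = D) : (FTS_p φ).IsHomogeneous D := by
  unfold FTS_p
  refine MvPolynomial.IsHomogeneous.sum _ _ _ fun a ha => ?_
  refine MvPolynomial.isHomogeneous_monomial _ ?_
  obtain ⟨h1, h2⟩ := hφ a ha
  rw [Finsupp.degree_eq_sum]
  unfold FTS_n
  simp only [Finsupp.equivFunOnFinite_symm_apply_apply]
  zify
  rw [← h2]
  exact Finset.sum_congr rfl fun j _ => Int.toNat_of_nonneg (h1 j)

theorem FTS_symm (φ : (Fin m → ℤ) →₀ ℤ) (hφ : ∀ a ∈ φ.support, ∀ j, 0 ≤ a j)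
    (hs : ∀ (σ : Equiv.Perm (Fin m)) (a : Fin m → ℤ), φ (a ∘ σ) = φ a) :
    (FTS_p φ).IsSymmetric := by
  intro e
  ext d
  have h1 : d = Finsupp.mapDomain e (Finsupp.mapDomain e.symm d) := by
    ext j
    rw [Finsupp.mapDomain_equiv_apply, Finsupp.mapDomain_equiv_apply]
    simp
  have h2 := MvPolynomial.coeff_rename_mapDomain e e.injective (FTS_p φ)
    (Finsupp.mapDomain e.symm d)
  rw [← h1] at h2
  rw [h2, FTS_coeff φ hφ, FTS_coeff φ hφ]
  have h3 : (fun j => ((Finsupp.mapDomain e.symm d j : ℕ) : ℤ)) =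
      (fun j => (d j : ℤ)) ∘ e := by
    ext j
    rw [Finsupp.mapDomain_equiv_apply]
    simp
  rw [h3, hs]

theorem FTS_esymm_hom (k : ℕ) : (MvPolynomial.esymm (Fin m) ℤ k).IsHomogeneous k := by
  unfold MvPolynomial.esymm
  refine MvPolynomial.IsHomogeneous.sum _ _ _ fun t ht => ?_
  have h := MvPolynomial.IsHomogeneous.prod t (fun i => (MvPolynomial.X i : MvPolynomial (Fin m) ℤ))
    (fun _ => 1) (fun i _ => MvPolynomial.isHomogeneous_X _ i)
  rw [Finset.sum_const, smul_eq_mul, mul_one, (Finset.mem_powersetCard.1 ht).2] at h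
  exact h

/-- a homogeneous symmetric polynomial is an isobaric polynomial in the elementary ones -/
theorem FTS_key (p : MvPolynomial (Fin m) ℤ) (D : ℕ) (hp : p.IsSymmetric)
    (hD : p.IsHomogeneous D) : ∃ (s : Finset (Fin m →₀ ℕ)) (k : (Fin m →₀ ℕ) → ℤ),
      (∀ d ∈ s, ∑ i : Fin m, ((i : ℕ) + 1) * d i = D) ∧
      p = ∑ d ∈ s, MvPolynomial.C (k d) *
        ∏ i : Fin m, (MvPolynomial.esymm (Fin m) ℤ ((i : ℕ) + 1)) ^ d i := by
  classical
  obtain ⟨q, hq⟩ := MvPolynomial.esymmAlgHom_surjective (σ := Fin m) ℤ (n := m) (by simp)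
    ⟨p, hp⟩
  have h1 : p = MvPolynomial.aeval
      (fun i : Fin m => MvPolynomial.esymm (Fin m) ℤ ((i : ℕ) + 1)) q := by
    have h2 : ((MvPolynomial.esymmAlgHom (Fin m) ℤ m q :
        MvPolynomial.symmetricSubalgebra (Fin m) ℤ) : MvPolynomial (Fin m) ℤ) = p := by
      rw [hq]
    rw [← h2]
    exact MvPolynomial.esymmAlgHom_apply q
  rw [MvPolynomial.aeval_def, MvPolynomial.eval₂_eq'] at h1
  refine ⟨q.support.filter fun d => ∑ i : Fin m, ((i : ℕ) + 1) * d i = D,
    fun d => MvPolynomial.coeff d q, fun d hd => (Finset.mem_filter.1 hd).2, ?_⟩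
  have h2 := congrArg (MvPolynomial.homogeneousComponent D) h1
  rw [MvPolynomial.homogeneousComponent_eq_self hD, map_sum] at h2
  rw [h2, Finset.sum_filter]
  refine Finset.sum_congr rfl fun d _ => ?_
  have h3 : (MvPolynomial.C (MvPolynomial.coeff d q) *
      ∏ i : Fin m, (MvPolynomial.esymm (Fin m) ℤ ((i : ℕ) + 1)) ^ d i).IsHomogeneous
      (∑ i : Fin m, ((i : ℕ) + 1) * d i) := by
    refine MvPolynomial.IsHomogeneous.C_mul ?_ _
    exact MvPolynomial.IsHomogeneous.prod _ _ _ fun i _ => (FTS_esymm_hom _).pow _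
  have h4 := MvPolynomial.homogeneousComponent_of_mem (m := D)
    ((MvPolynomial.mem_homogeneousSubmodule _ _).2 h3)
  refine h4.trans ?_
  by_cases h5 : ∑ i : Fin m, ((i : ℕ) + 1) * d i = D
  · rw [if_pos h5.symm, if_pos h5]
  · rw [if_neg (fun h => h5 h.symm), if_neg h5]

end poly

theorem s_FTS : S_FTS := by
  intro m D φ hφ hσ
  have hn : ∀ a ∈ φ.support, ∀ j, 0 ≤ a j := fun a ha => (hφ a ha).1
  obtain ⟨s, k, h1, h2⟩ := FTS_key (FTS_p φ) D (FTS_symm φ hn hσ) (FTS_hom φ D hφ)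
  have h3 : (fun c => ev φ c) ∈ FTS_A m D := by
    have h4 : (fun c => ev φ c) = ∑ d ∈ s, (k d) • ∏ i : Fin m, (FTS_E ((i : ℕ) + 1)) ^ d i := by
      ext c
      rw [← FTS_aeval φ hn c, h2, map_sum, Finset.sum_apply]
      refine Finset.sum_congr rfl fun d _ => ?_
      rw [map_mul, map_prod, MvPolynomial.aeval_C, Pi.smul_apply, Finset.prod_apply,
        zsmul_eq_mul]
      congr 1
      refine Finset.prod_congr rfl fun i _ => ?_
      rw [map_pow, MvPolynomial.aeval_esymm_eq_multiset_esymm]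
      rfl
    rw [h4]
    refine AddSubgroup.sum_mem _ fun d hd => AddSubgroup.zsmul_mem _ ?_ _
    have h5 := FTS_prod (m := m) Finset.univ (fun i : Fin m => (FTS_E ((i : ℕ) + 1)) ^ d i)
      (fun i => ((i : ℕ) + 1) * d i) fun i => FTS_pow (FTS_E_mem _) _
    rwa [h1 d hd] at h5
  obtain ⟨ψ, hψ, hψ'⟩ := FTS_fin h3
  exact ⟨ψ, hψ, hψ'⟩

end Pool.H66.S2
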