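import Pool.Agent.H66.S2.Basic

/-!
# Project T5, module KOS: the weights of a Schur function
-/

set_option autoImplicit false

namespace Pool.H66.S2

section core

variable {m : ℕ}

theorem KOS_first {τ : Equiv.Perm (Fin m)} (h : τ ≠ 1) : ∃ i, (∀ j < i, τ j = j) ∧ i < τ i := by
  have h1 : ∃ i, τ i ≠ i := by
    by_contra h2
    push Not at h2
    exact h (Equiv.ext h2)
  obtain ⟨i, hi, hmin⟩ := WellFounded.has_min (wellFounded_lt (α := Fin m)) {i | τ i ≠ i} h1
  have h2 : ∀ j < i, τ j = j := fun j hj => by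
    by_contra h3
    exact hmin j h3 hj
  refine ⟨i, h2, ?_⟩
  rcases lt_trichotomy (τ i) i with h3 | h3 | h3
  · exact absurd (τ.injective (h2 _ h3)) hi
  · exact absurd h3 hi
  · exact h3

/-- shift -/
def KOS_s (b : Fin m → ℤ) (τ : Equiv.Perm (Fin m)) (j : Fin m) : ℤ :=
  b j + ((τ j : ℕ) : ℤ) - ((j : ℕ) : ℤ)

/-- permutation -/
def KOS_t (b : Fin m → ℤ) (τ : Equiv.Perm (Fin m)) (j : Fin m) : ℤ :=
  b (τ j) - ((τ j : ℕ) : ℤ) + ((j : ℕ) : ℤ)

theorem KOS_s_one (b : Fin m → ℤ) : KOS_s b 1 = b := by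
  ext j
  unfold KOS_s
  rw [Equiv.Perm.one_apply]
  ring

theorem KOS_t_one (b : Fin m → ℤ) : KOS_t b 1 = b := by
  ext j
  unfold KOS_t
  rw [Equiv.Perm.one_apply]
  ring

theorem KOS_s_lt (b : Fin m → ℤ) {τ : Equiv.Perm (Fin m)} (h : τ ≠ 1) :
    toLex b < toLex (KOS_s b τ) := by
  obtain ⟨i, h1, h2⟩ := KOS_first h
  refine ⟨i, fun j hj => ?_, ?_⟩
  · show b j = KOS_s b τ j
    unfold KOS_s
    rw [h1 j hj]
    ring
  · show b i < KOS_s b τ i
    unfold KOS_s
    have : (i : ℕ) < (τ i : ℕ) := h2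
    omega

theorem KOS_mono {τ : Equiv.Perm (Fin m)} (h : StrictMono τ) : τ = 1 := by
  by_contra h1
  have h2 : ∀ j, j ≤ τ j := fun j => h.le_apply
  obtain ⟨i, h3, h4⟩ := KOS_first (τ := τ⁻¹) (fun h5 => h1 (inv_eq_one.1 h5))
  have h5 := h2 (τ⁻¹ i)
  rw [← Equiv.Perm.mul_apply, mul_inv_cancel, Equiv.Perm.one_apply] at h5
  exact absurd h4 (not_lt.2 h5)

theorem KOS_perm {nu b : Fin m → ℤ} (hnu : Antitone nu)
    (hb : ∀ j k : Fin m, j < k → b k - ((k : ℕ) : ℤ) ≤ b j - ((j : ℕ) : ℤ))
    {τ : Equiv.Perm (Fin m)} (h : b = KOS_t nu τ) : τ = 1 := by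
  apply KOS_mono
  intro j k hjk
  by_contra h3
  rw [not_lt] at h3
  have h4 : τ k < τ j := lt_of_le_of_ne h3 fun h5 => (ne_of_gt hjk) (τ.injective h5)
  have h5 := hnu h3
  have h6 : b j = nu (τ j) - ((τ j : ℕ) : ℤ) + ((j : ℕ) : ℤ) := congrFun h j
  have h7 : b k = nu (τ k) - ((τ k : ℕ) : ℤ) + ((k : ℕ) : ℤ) := congrFun h k
  have h8 := hb j k hjk
  have h9 : (τ k : ℕ) < (τ j : ℕ) := h4
  omega

/-- the properties of the coefficients -/
structure KOS_P (nu : Fin m → ℤ) (K : (Fin m → ℤ) →₀ ℤ) : Prop where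
  anti : Antitone nu
  nn : ∀ a, K a ≠ 0 → ∀ j, 0 ≤ a j
  sym : ∀ (σ : Equiv.Perm (Fin m)) (a : Fin m → ℤ), K (a ∘ σ) = K a
  id : ∀ b : Fin m → ℤ, ∑ τ : Equiv.Perm (Fin m), ((Equiv.Perm.sign τ : ℤˣ) : ℤ) * K (KOS_s b τ) =
    ∑ τ : Equiv.Perm (Fin m), ((Equiv.Perm.sign τ : ℤˣ) : ℤ) * if b = KOS_t nu τ then 1 else 0

theorem KOS_anti {b : Fin m → ℤ} (hb : Antitone b) (j k : Fin m) (h : j < k) :
    b k - ((k : ℕ) : ℤ) ≤ b j - ((j : ℕ) : ℤ) := by
  have h1 := hb h.le
  have h2 : (j : ℕ) < (k : ℕ) := h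
  omega

theorem KOS_max {nu : Fin m → ℤ} {K : (Fin m → ℤ) →₀ ℤ} (hK : KOS_P nu K) {a : Fin m → ℤ}
    (ha : K a ≠ 0) : toLex a ≤ toLex nu := by
  have hne : K.support.Nonempty := ⟨a, Finsupp.mem_support_iff.2 ha⟩
  obtain ⟨x, hx, hmax⟩ := Finset.exists_max_image K.support toLex hne
  have hx' := Finsupp.mem_support_iff.1 hx
  have hanti : Antitone x := by
    intro j k hjk
    by_contra h
    rw [not_le] at h
    have hne : j ≠ k := fun h1 => by
      rw [h1] at h
      exact lt_irrefl _ h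
    have hlt : j < k := lt_of_le_of_ne hjk hne
    have h1 : x ∘ Equiv.swap j k ∈ K.support := by
      rw [Finsupp.mem_support_iff, hK.sym]
      exact hx'
    have h2 := hmax _ h1
    have h3 : toLex x < toLex (x ∘ Equiv.swap j k) := by
      refine ⟨j, fun l hl => ?_, ?_⟩
      · show x l = x (Equiv.swap j k l)
        rw [Equiv.swap_apply_of_ne_of_ne (ne_of_lt hl) (ne_of_lt (hl.trans hlt))]
      · show x j < x (Equiv.swap j k j)
        rw [Equiv.swap_apply_left]
        exact h
    exact absurd h2 (not_le.2 h3)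
  have e := hK.id x
  rw [Finset.sum_eq_single 1] at e
  · rw [KOS_s_one, Equiv.Perm.sign_one, Units.val_one, one_mul] at e
    have h1 : ∑ τ : Equiv.Perm (Fin m), ((Equiv.Perm.sign τ : ℤˣ) : ℤ) *
        (if x = KOS_t nu τ then (1 : ℤ) else 0) ≠ 0 := by
      rw [← e]
      exact hx'
    obtain ⟨τ, -, h2⟩ := Finset.exists_ne_zero_of_sum_ne_zero h1
    have h3 : x = KOS_t nu τ := by
      by_contra h4
      rw [if_neg h4, mul_zero] at h2
      exact h2 rfl
    have h4 := KOS_perm hK.anti (KOS_anti hanti) h3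
    rw [h4, KOS_t_one] at h3
    rw [← h3]
    exact hmax a (Finsupp.mem_support_iff.2 ha)
  · intro τ _ hτ
    have h1 : K (KOS_s x τ) = 0 := by
      by_contra h2
      exact absurd (hmax _ (Finsupp.mem_support_iff.2 h2)) (not_le.2 (KOS_s_lt x hτ))
    rw [h1, mul_zero]
  · intro h
    exact absurd (Finset.mem_univ _) h

theorem KOS_top {nu : Fin m → ℤ} {K : (Fin m → ℤ) →₀ ℤ} (hK : KOS_P nu K) : K nu = 1 := by
  have e := hK.id nu
  rw [Finset.sum_eq_single 1, Finset.sum_eq_single 1] at e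
  · rw [KOS_s_one, KOS_t_one, if_pos rfl] at e
    simpa using e
  · intro τ _ hτ
    rw [if_neg, mul_zero]
    intro h
    exact hτ (KOS_perm hK.anti (KOS_anti hK.anti) h)
  · intro h
    exact absurd (Finset.mem_univ _) h
  · intro τ _ hτ
    have h1 : K (KOS_s nu τ) = 0 := by
      by_contra h2
      exact absurd (KOS_max hK h2) (not_le.2 (KOS_s_lt nu hτ))
    rw [h1, mul_zero]
  · intro h
    exact absurd (Finset.mem_univ _) h

theorem KOS_up {nu : Fin m → ℤ} {K : (Fin m → ℤ) →₀ ℤ} (hK : KOS_P nu K) {i r : Fin m}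
    (h : i < r) : K (nu - ee r + ee i) = 0 := by
  by_contra h1
  refine absurd (KOS_max hK h1) (not_le.2 ⟨i, fun j hj => ?_, ?_⟩)
  · show nu j = nu j - ee r j + ee i j
    unfold ee
    rw [Pi.single_eq_of_ne (ne_of_lt (hj.trans h)), Pi.single_eq_of_ne (ne_of_lt hj)]
    ring
  · show nu i < nu i - ee r i + ee i i
    unfold ee
    rw [Pi.single_eq_of_ne (ne_of_lt h), Pi.single_eq_same]
    linarith

theorem KOS_sum (τ : Equiv.Perm (Fin m)) :
    ∑ j : Fin m, (((τ j : ℕ) : ℤ) - ((j : ℕ) : ℤ)) = 0 := by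
  rw [Finset.sum_sub_distrib, Equiv.sum_comp τ (fun j : Fin m => ((j : ℕ) : ℤ)), sub_self]

/-- the weight with the last box moved to the next row -/
theorem KOS_next {nu : Fin m → ℤ} {K : (Fin m → ℤ) →₀ ℤ} (hK : KOS_P nu K) {r r' : Fin m}
    (hr' : (r' : ℕ) = r + 1) (hr : 0 < nu r) (h0 : ∀ j, r < j → nu j = 0) :
    K (nu - ee r + ee r') = 1 := by
  have hrr : r < r' := by
    show (r : ℕ) < (r' : ℕ)
    omega
  set b : Fin m → ℤ := nu - ee r + ee r' with hb
  have b1 : ∀ j, j ≠ r → j ≠ r' → b j = nu j := by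
    intro j h1 h2
    show nu j - ee r j + ee r' j = nu j
    unfold ee
    rw [Pi.single_eq_of_ne h1, Pi.single_eq_of_ne h2]
    ring
  have b2 : b r = nu r - 1 := by
    show nu r - ee r r + ee r' r = nu r - 1
    unfold ee
    rw [Pi.single_eq_same, Pi.single_eq_of_ne (ne_of_lt hrr)]
    ring
  have b3 : b r' = 1 := by
    show nu r' - ee r r' + ee r' r' = 1
    unfold ee
    rw [Pi.single_eq_same, Pi.single_eq_of_ne (ne_of_gt hrr), h0 r' hrr]
    ring
  have nn0 : ∀ j, 0 ≤ nu j := by
    intro j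
    rcases le_or_gt j r with h | h
    · exact hr.le.trans (hK.anti h)
    · rw [h0 j h]
  -- the right side vanishes
  have hbb : ∀ j k : Fin m, j < k → b k - ((k : ℕ) : ℤ) ≤ b j - ((j : ℕ) : ℤ) := by
    intro j k hjk
    have h1 : (j : ℕ) < (k : ℕ) := hjk
    have h2 := hK.anti hjk.le
    have h3 : k = r' → b k = 1 := fun h => by rw [h, b3]
    have h4 : j = r → b j = nu r - 1 := fun h => by rw [h, b2]
    have h5 : k ≤ r' → b k ≤ 1 + nu k := by
      intro _
      by_cases e1 : k = r
      · rw [e1, b2]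
        linarith
      · by_cases e2 : k = r'
        · rw [e2, b3]
          linarith [nn0 r']
        · rw [b1 k e1 e2]
          linarith
    have h6 : k ≠ r' → b k ≤ nu k := by
      intro e2
      by_cases e1 : k = r
      · rw [e1, b2]
        linarith
      · rw [b1 k e1 e2]
    have h7 : j ≠ r → nu j ≤ b j := by
      intro e1
      by_cases e2 : j = r'
      · rw [e2, b3, h0 r' hrr]
        norm_num
      · rw [b1 j e1 e2]
    by_cases e1 : j = r
    · by_cases e2 : k = r'
      · rw [h3 e2, h4 e1, e1, e2]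
        omega
      · have h8 := h6 e2
        have h9 : nu k = 0 := h0 k (by rw [← e1]; exact hjk)
        rw [h4 e1, e1]
        rw [e1] at h1
        omega
    · have h8 := h7 e1
      by_cases e2 : k = r'
      · rw [h3 e2]
        by_cases e3 : j < r
        · have h9 := hK.anti e3.le
          omega
        · exfalso
          have e4 : (j : ℕ) ≠ (r : ℕ) := fun h => e1 (Fin.ext h)
          have e5 : ¬ (j : ℕ) < (r : ℕ) := e3
          rw [e2] at h1
          omega
      · have h9 := h6 e2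
        omega
  have hRHS : ∑ τ : Equiv.Perm (Fin m), ((Equiv.Perm.sign τ : ℤˣ) : ℤ) *
      (if b = KOS_t nu τ then (1 : ℤ) else 0) = 0 := by
    refine Finset.sum_eq_zero fun τ _ => ?_
    rw [if_neg, mul_zero]
    intro h
    have h1 := KOS_perm hK.anti hbb h
    rw [h1, KOS_t_one] at h
    have h2 := congrFun h r
    rw [b2] at h2
    linarith
  -- the left side
  have hcase : ∀ τ : Equiv.Perm (Fin m), K (KOS_s b τ) ≠ 0 → τ ≠ 1 → τ = Equiv.swap r r' := by
    intro τ hτ h1
    have hle := KOS_max hK hτ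
    have hnn := hK.nn _ hτ
    have hy : ∀ j, KOS_s b τ j = b j + ((τ j : ℕ) : ℤ) - ((j : ℕ) : ℤ) := fun j => rfl
    obtain ⟨i, hi1, hi2⟩ := KOS_first h1
    have hi2' : (i : ℕ) < (τ i : ℕ) := hi2
    rcases lt_trichotomy i r with h2 | h2 | h2
    · exfalso
      refine absurd hle (not_le.2 ⟨i, fun j hj => ?_, ?_⟩)
      · show nu j = KOS_s b τ j
        rw [hy, hi1 j hj, b1 j (ne_of_lt (hj.trans h2)) (ne_of_lt ((hj.trans h2).trans hrr))]
        ring
      · show nu i < KOS_s b τ i
        rw [hy, b1 i (ne_of_lt h2) (ne_of_lt (h2.trans hrr))]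
        omega
    · subst h2
      -- `τ i = r'`
      have hr1 : τ i = r' := by
        by_contra h3
        refine absurd hle (not_le.2 ⟨i, fun j hj => ?_, ?_⟩)
        · show nu j = KOS_s b τ j
          rw [hy, hi1 j hj, b1 j (ne_of_lt hj) (ne_of_lt (hj.trans hrr))]
          ring
        · show nu i < KOS_s b τ i
          rw [hy, b2]
          have h4 : (τ i : ℕ) ≠ (r' : ℕ) := fun h => h3 (Fin.ext h)
          omega
      have hyi : KOS_s b τ i = nu i := by
        rw [hy, hr1, b2, hr']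
        push_cast
        ring
      have hr2 : τ r' = i := by
        by_contra h3
        have h4 : i < τ r' := by
          rcases lt_trichotomy (τ r') i with h5 | h5 | h5
          · exact absurd (τ.injective (hi1 _ h5)) (fun h6 => by
              rw [h6] at h5
              exact absurd h5 (not_lt.2 hrr.le))
          · exact absurd h5 h3
          · exact h5
        have h4' : (i : ℕ) < (τ r' : ℕ) := h4
        refine absurd hle (not_le.2 ⟨r', fun j hj => ?_, ?_⟩)
        · show nu j = KOS_s b τ j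
          have hj' : (j : ℕ) < (r' : ℕ) := hj
          rcases lt_trichotomy j i with h5 | h5 | h5
          · rw [hy, hi1 j h5, b1 j (ne_of_lt h5) (ne_of_lt hj)]
            ring
          · rw [h5, hyi]
          · have h6 : (i : ℕ) < (j : ℕ) := h5
            omega
        · show nu r' < KOS_s b τ r'
          rw [hy, b3, h0 r' hrr]
          omega
      -- the rest is fixed
      by_contra h3
      have h4 : Equiv.swap i r' * τ ≠ 1 := by
        intro h5
        apply h3
        have h6 : τ = (Equiv.swap i r')⁻¹ := by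
          rw [eq_comm, inv_eq_iff_mul_eq_one]
          exact h5
        rw [h6, Equiv.swap_inv]
      obtain ⟨k, hk1, hk2⟩ := KOS_first h4
      have f1 : ∀ j, j ≠ i → j ≠ r' → (Equiv.swap i r' * τ) j = τ j := by
        intro j e1 e2
        rw [Equiv.Perm.mul_apply]
        refine Equiv.swap_apply_of_ne_of_ne ?_ ?_
        · intro h
          rw [← hr2] at h
          exact e2 (τ.injective h)
        · intro h
          rw [← hr1] at h
          exact e1 (τ.injective h)
      have f2 : (Equiv.swap i r' * τ) i = i := by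
        rw [Equiv.Perm.mul_apply, hr1, Equiv.swap_apply_right]
      have f3 : (Equiv.swap i r' * τ) r' = r' := by
        rw [Equiv.Perm.mul_apply, hr2, Equiv.swap_apply_left]
      have g1 : k ≠ i := fun h => by
        rw [h, f2] at hk2
        exact lt_irrefl _ hk2
      have g2 : k ≠ r' := fun h => by
        rw [h, f3] at hk2
        exact lt_irrefl _ hk2
      rw [f1 k g1 g2] at hk2
      have hk2' : (k : ℕ) < (τ k : ℕ) := hk2
      have g3 : r' < k := by
        rcases lt_trichotomy k r' with h5 | h5 | h5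
        · exfalso
          have h6 : k < i := by
            rcases lt_trichotomy k i with h7 | h7 | h7
            · exact h7
            · exact absurd h7 g1
            · have h8 : (i : ℕ) < (k : ℕ) := h7
              have h9 : (k : ℕ) < (r' : ℕ) := h5
              omega
          rw [hi1 k h6] at hk2
          exact lt_irrefl _ hk2
        · exact absurd h5 g2
        · exact h5
      refine absurd hle (not_le.2 ⟨k, fun j hj => ?_, ?_⟩)
      · show nu j = KOS_s b τ j
        by_cases e1 : j = i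
        · rw [e1, hyi]
        · by_cases e2 : j = r'
          · rw [e2, hy, hr2, b3, h0 r' hrr, hr']
            push_cast
            ring
          · have h5 := hk1 j hj
            rw [f1 j e1 e2] at h5
            rw [hy, h5, b1 j e1 e2]
            ring
      · show nu k < KOS_s b τ k
        rw [hy, b1 k g1 g2]
        omega
    · exfalso
      have hw : ∀ j : Fin m, 0 ≤ ((τ j : ℕ) : ℤ) - ((j : ℕ) : ℤ) := by
        intro j
        rcases le_or_gt j r with h3 | h3
        · rw [hi1 j (lt_of_le_of_lt h3 h2), sub_self]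
        · by_cases e2 : j = r'
          · rcases lt_trichotomy j i with h4 | h4 | h4
            · rw [hi1 j h4, sub_self]
            · rw [h4]
              omega
            · exfalso
              rw [e2] at h4
              have h5 : (r : ℕ) < (i : ℕ) := h2
              have h6 : (i : ℕ) < (r' : ℕ) := h4
              omega
          · have h4 := hnn j
            rw [hy, b1 j (ne_of_gt h3) e2, h0 j h3] at h4
            linarith
      have hs := (Finset.sum_eq_zero_iff_of_nonneg (fun j _ => hw j)).1 (KOS_sum τ) i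
        (Finset.mem_univ i)
      omega
  have hne : (1 : Equiv.Perm (Fin m)) ≠ Equiv.swap r r' := by
    intro h
    have h1 := congrArg (fun τ : Equiv.Perm (Fin m) => τ r) h
    simp only [Equiv.Perm.one_apply, Equiv.swap_apply_left] at h1
    exact (ne_of_lt hrr) h1
  have e := hK.id b
  rw [hRHS, Finset.sum_eq_add 1 (Equiv.swap r r') hne] at e
  · have h1 : KOS_s b (Equiv.swap r r') = nu := by
      ext j
      unfold KOS_s
      by_cases e1 : j = r
      · rw [e1, Equiv.swap_apply_left, b2, hr']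
        push_cast
        ring
      · by_cases e2 : j = r'
        · rw [e2, Equiv.swap_apply_right, b3, h0 r' hrr, hr']
          push_cast
          ring
        · rw [Equiv.swap_apply_of_ne_of_ne e1 e2, b1 j e1 e2]
          ring
    rw [KOS_s_one, h1, KOS_top hK, Equiv.Perm.sign_one,
      Equiv.Perm.sign_swap (ne_of_lt hrr)] at e
    simp only [Units.val_one, one_mul, Units.val_neg, mul_one] at e
    linarith
  · intro τ _ hτ
    have h1 : K (KOS_s b τ) = 0 := by
      by_contra h2
      exact hτ.2 (hcase τ h2 hτ.1)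
    rw [h1, mul_zero]
  · intro h
    exact absurd (Finset.mem_univ _) h
  · intro h
    exact absurd (Finset.mem_univ _) h

theorem KOS_down {nu : Fin m → ℤ} {K : (Fin m → ℤ) →₀ ℤ} (hK : KOS_P nu K) {r i : Fin m}
    (hi : r < i) (hr : 0 < nu r) (h0 : ∀ j, r < j → nu j = 0) :
    K (nu - ee r + ee i) = 1 := by
  have h1 : (r : ℕ) + 1 < m := by
    have h2 : (r : ℕ) < (i : ℕ) := hi
    have h3 := i.2
    omega
  set r' : Fin m := ⟨r + 1, h1⟩ with hr'
  have h2 := KOS_next hK (r := r) (r' := r') rfl hr h0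
  have hrr : r < r' := by
    show (r : ℕ) < (r : ℕ) + 1
    omega
  have h3 : nu - ee r + ee i = (nu - ee r + ee r') ∘ Equiv.swap i r' := by
    ext j
    show nu j - ee r j + ee i j = nu (Equiv.swap i r' j) - ee r (Equiv.swap i r' j) +
      ee r' (Equiv.swap i r' j)
    by_cases e1 : j = i
    · rw [e1, Equiv.swap_apply_left, h0 i hi, h0 r' hrr]
      unfold ee
      rw [Pi.single_eq_same, Pi.single_eq_same, Pi.single_eq_of_ne (ne_of_gt hi),
        Pi.single_eq_of_ne (ne_of_gt hrr)]
    · by_cases e2 : j = r'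
      · rw [e2, Equiv.swap_apply_right, h0 i hi, h0 r' hrr]
        rw [e2] at e1
        unfold ee
        rw [Pi.single_eq_of_ne e1, Pi.single_eq_of_ne (Ne.symm e1),
          Pi.single_eq_of_ne (ne_of_gt hi), Pi.single_eq_of_ne (ne_of_gt hrr)]
      · rw [Equiv.swap_apply_of_ne_of_ne e1 e2]
        unfold ee
        rw [Pi.single_eq_of_ne e1, Pi.single_eq_of_ne e2]
  rw [h3, hK.sym, h2]

end core

section poly

variable {m : ℕ}

/-- polynomials are determined by their values -/
theorem KOS_inj {p q : MvPolynomial (Fin m) ℤ}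
    (h : ∀ c : Fin m → ℂ, MvPolynomial.aeval c p = MvPolynomial.aeval c q) : p = q := by
  apply MvPolynomial.map_injective (Int.castRingHom ℂ) Int.cast_injective
  apply MvPolynomial.funext
  intro c
  have h1 := h c
  rw [MvPolynomial.aeval_def, MvPolynomial.aeval_def] at h1
  rw [MvPolynomial.eval_map, MvPolynomial.eval_map]
  exact h1

theorem KOS_h (hH : S_HSB) (k : ℕ) : ∀ s : Multiset (Fin m), ∃ P : MvPolynomial (Fin m) ℤ,
    P.IsHomogeneous k ∧ ∀ c : Fin m → ℂ, MvPolynomial.aeval c P = hs k (s.map c) := by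
  obtain ⟨h0, h1, -, h2, -⟩ := hH
  induction k with
  | zero =>
    intro s
    exact ⟨1, MvPolynomial.isHomogeneous_one _ _, fun c => by rw [map_one, h0]⟩
  | succ k ih =>
    intro s
    induction s using Multiset.induction_on with
    | empty =>
      exact ⟨0, MvPolynomial.isHomogeneous_zero _ _ _, fun c => by
        rw [map_zero, Multiset.map_zero, h1]⟩
    | cons i s ihs =>
      obtain ⟨P1, a1, b1⟩ := ihs
      obtain ⟨P2, a2, b2⟩ := ih (i ::ₘ s)
      refine ⟨P1 + MvPolynomial.X i * P2, a1.add ?_, fun c => ?_⟩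
      · have h3 := (MvPolynomial.isHomogeneous_X ℤ i).mul a2
        rwa [Nat.add_comm 1 k] at h3
      · rw [map_add, map_mul, MvPolynomial.aeval_X, b1, b2, Multiset.map_cons, h2]

/-- the Schur polynomial -/
theorem KOS_schur (hH : S_HSB) (nu : Fin m → ℕ) : ∃ S : MvPolynomial (Fin m) ℤ,
    S.IsHomogeneous (∑ j, nu j) ∧
    ∀ c : Fin m → ℂ, MvPolynomial.aeval c S = schur nu (Finset.univ.val.map c) := by
  have hh := fun k => KOS_h (m := m) hH k Finset.univ.val
  choose h h1 h2 using hh
  refine ⟨JT h nu, ?_, fun c => ?_⟩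
  · unfold JT
    rw [Matrix.det_apply']
    refine MvPolynomial.IsHomogeneous.sum _ _ _ fun σ _ => ?_
    have e1 : (((Equiv.Perm.sign σ : ℤˣ) : ℤ) : MvPolynomial (Fin m) ℤ) =
        MvPolynomial.C ((Equiv.Perm.sign σ : ℤˣ) : ℤ) := by
      rw [← eq_intCast (MvPolynomial.C : ℤ →+* MvPolynomial (Fin m) ℤ)]
    rw [e1]
    refine MvPolynomial.IsHomogeneous.C_mul ?_ _
    by_cases hn : ∀ i : Fin m, 0 ≤ ((nu (σ i) : ℕ) : ℤ) - ((σ i : ℕ) : ℤ) + ((i : ℕ) : ℤ)
    · have e2 : ∀ i : Fin m, (Matrix.of fun i j : Fin m =>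
          sz h (((nu i : ℕ) : ℤ) - ((i : ℕ) : ℤ) + ((j : ℕ) : ℤ))) (σ i) i =
          h (((nu (σ i) : ℕ) : ℤ) - ((σ i : ℕ) : ℤ) + ((i : ℕ) : ℤ)).toNat := by
        intro i
        rw [Matrix.of_apply]
        unfold sz
        rw [if_pos (hn i)]
      rw [Finset.prod_congr rfl fun i _ => e2 i]
      have e3 := MvPolynomial.IsHomogeneous.prod Finset.univ
        (fun i : Fin m => h (((nu (σ i) : ℕ) : ℤ) - ((σ i : ℕ) : ℤ) + ((i : ℕ) : ℤ)).toNat)
        (fun i => (((nu (σ i) : ℕ) : ℤ) - ((σ i : ℕ) : ℤ) + ((i : ℕ) : ℤ)).toNat)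
        fun i _ => h1 _
      have e4 : ∑ i : Fin m, (((nu (σ i) : ℕ) : ℤ) - ((σ i : ℕ) : ℤ) + ((i : ℕ) : ℤ)).toNat =
          ∑ j, nu j := by
        zify
        rw [Finset.sum_congr rfl fun i _ => Int.toNat_of_nonneg (hn i), Finset.sum_add_distrib,
          Finset.sum_sub_distrib, Equiv.sum_comp σ (fun j : Fin m => ((nu j : ℕ) : ℤ)),
          Equiv.sum_comp σ (fun j : Fin m => ((j : ℕ) : ℤ))]
        ring
      rwa [e4] at e3
    · push Not at hn
      obtain ⟨i, hi⟩ := hn
      rw [Finset.prod_eq_zero (Finset.mem_univ i)]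
      · exact MvPolynomial.isHomogeneous_zero _ _ _
      · rw [Matrix.of_apply]
        unfold sz
        rw [if_neg (not_le.2 hi)]
  · unfold schur JT
    rw [AlgHom.map_det]
    congr 1
    ext i j
    rw [AlgHom.mapMatrix_apply, Matrix.map_apply, Matrix.of_apply, Matrix.of_apply]
    unfold sz
    split_ifs
    · rw [h2]
    · rw [map_zero]

theorem KOS_symm (S : MvPolynomial (Fin m) ℤ) (nu : Fin m → ℕ)
    (hS : ∀ c : Fin m → ℂ, MvPolynomial.aeval c S = schur nu (Finset.univ.val.map c)) :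
    S.IsSymmetric := by
  intro e
  apply KOS_inj
  intro c
  rw [MvPolynomial.aeval_rename, hS, hS]
  congr 1
  have h1 : (Finset.univ : Finset (Fin m)).val.map e = Finset.univ.val := by
    have h2 := congrArg Finset.val (Finset.map_univ_equiv e)
    rwa [Finset.map_val] at h2
  conv_rhs => rw [← h1, Multiset.map_map]

/-- coefficients as a function on the integral weights -/
noncomputable def KOS_K (S : MvPolynomial (Fin m) ℤ) : (Fin m → ℤ) →₀ ℤ :=
  ∑ d ∈ S.support, Finsupp.single (fun j => ((d j : ℕ) : ℤ)) (MvPolynomial.coeff d S)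

theorem KOS_K_nat (S : MvPolynomial (Fin m) ℤ) (d : Fin m →₀ ℕ) :
    KOS_K S (fun j => ((d j : ℕ) : ℤ)) = MvPolynomial.coeff d S := by
  classical
  unfold KOS_K
  rw [Finsupp.finsetSum_apply]
  have h : ∀ x ∈ S.support, (Finsupp.single (fun j => ((x j : ℕ) : ℤ))
      (MvPolynomial.coeff x S)) (fun j => ((d j : ℕ) : ℤ)) =
      if d = x then MvPolynomial.coeff x S else 0 := by
    intro x _
    rw [Finsupp.single_apply]
    have e : ((fun j => ((x j : ℕ) : ℤ)) = fun j => ((d j : ℕ) : ℤ)) ↔ d = x := by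
      constructor
      · intro h
        ext j
        have h1 := congrFun h j
        simp only [Nat.cast_inj] at h1
        exact h1.symm
      · intro h
        rw [h]
    simp only [e]
  rw [Finset.sum_congr rfl h, Finset.sum_ite_eq]
  split_ifs with h1
  · rfl
  · rw [MvPolynomial.notMem_support_iff] at h1
    exact h1.symm

theorem KOS_K_neg (S : MvPolynomial (Fin m) ℤ) {a : Fin m → ℤ} {j : Fin m} (h : a j < 0) :
    KOS_K S a = 0 := by
  unfold KOS_K
  rw [Finsupp.finsetSum_apply]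
  refine Finset.sum_eq_zero fun d _ => ?_
  rw [Finsupp.single_eq_of_ne]
  intro h1
  have h2 := congrFun h1 j
  omega

theorem KOS_ev (S : MvPolynomial (Fin m) ℤ) (c : Fin m → ℂ) :
    ev (KOS_K S) c = MvPolynomial.aeval c S := by
  unfold KOS_K
  rw [ev_sum, MvPolynomial.aeval_def, MvPolynomial.eval₂_eq']
  refine Finset.sum_congr rfl fun d _ => ?_
  rw [ev_single]
  unfold mon
  simp only [zpow_natCast]
  rfl

theorem KOS_lift (a : Fin m → ℤ) (h : ∀ j, 0 ≤ a j) :
    ∃ d : Fin m →₀ ℕ, a = fun j => ((d j : ℕ) : ℤ) := by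
  refine ⟨Finsupp.equivFunOnFinite.symm fun j => (a j).toNat, ?_⟩
  ext j
  rw [Finsupp.equivFunOnFinite_symm_apply_apply, Int.toNat_of_nonneg (h j)]

theorem KOS_K_symm (S : MvPolynomial (Fin m) ℤ) (hS : S.IsSymmetric)
    (σ : Equiv.Perm (Fin m)) (a : Fin m → ℤ) : KOS_K S (a ∘ σ) = KOS_K S a := by
  by_cases h : ∀ j, 0 ≤ a j
  · obtain ⟨d, rfl⟩ := KOS_lift a h
    have h1 : (fun j => ((d j : ℕ) : ℤ)) ∘ σ =
        fun j => ((Finsupp.mapDomain σ.symm d j : ℕ) : ℤ) := by
      ext j
      rw [Finsupp.mapDomain_equiv_apply]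
      simp
    rw [h1, KOS_K_nat, KOS_K_nat]
    have h2 := MvPolynomial.coeff_rename_mapDomain σ.symm σ.symm.injective S d
    rw [hS σ.symm] at h2
    exact h2
  · push Not at h
    obtain ⟨j, hj⟩ := h
    rw [KOS_K_neg S hj, KOS_K_neg S (a := a ∘ σ) (j := σ.symm j)
      (by rw [Function.comp_apply, Equiv.apply_symm_apply]; exact hj)]

theorem KOS_det (f : Fin m → ℕ) :
    (Matrix.of fun i j : Fin m => (MvPolynomial.X i : MvPolynomial (Fin m) ℤ) ^ f j).det =
      ∑ τ : Equiv.Perm (Fin m), MvPolynomial.C ((Equiv.Perm.sign τ : ℤˣ) : ℤ) *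
        MvPolynomial.monomial (Finsupp.equivFunOnFinite.symm fun i => f (τ i)) 1 := by
  rw [← Matrix.det_transpose, Matrix.det_apply']
  refine Finset.sum_congr rfl fun τ _ => ?_
  congr 1
  rw [MvPolynomial.monomial_eq, Finsupp.prod_fintype _ _ (fun i => pow_zero _), map_one, one_mul]
  refine Finset.prod_congr rfl fun i _ => ?_
  rw [Matrix.transpose_apply, Matrix.of_apply, Finsupp.equivFunOnFinite_symm_apply_apply]

theorem KOS_id (nu : Fin m → ℕ) (S : MvPolynomial (Fin m) ℤ)
    (h : S * (Matrix.of fun i j : Fin m =>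
      (MvPolynomial.X i : MvPolynomial (Fin m) ℤ) ^ (m - 1 - (j : ℕ))).det =
      (Matrix.of fun i j : Fin m =>
        (MvPolynomial.X i : MvPolynomial (Fin m) ℤ) ^ (nu j + (m - 1 - (j : ℕ)))).det)
    (b : Fin m → ℤ) :
    ∑ τ : Equiv.Perm (Fin m), ((Equiv.Perm.sign τ : ℤˣ) : ℤ) * KOS_K S (KOS_s b τ) =
    ∑ τ : Equiv.Perm (Fin m), ((Equiv.Perm.sign τ : ℤˣ) : ℤ) *
      if b = KOS_t (fun j => ((nu j : ℕ) : ℤ)) τ then 1 else 0 := by
  classical
  by_cases hb : ∀ j : Fin m, 0 ≤ b j + ((m - 1 - (j : ℕ) : ℕ) : ℤ)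
  · set x : Fin m →₀ ℕ := Finsupp.equivFunOnFinite.symm fun j =>
      (b j + ((m - 1 - (j : ℕ) : ℕ) : ℤ)).toNat with hx
    have hx' : ∀ j, ((x j : ℕ) : ℤ) = b j + ((m - 1 - (j : ℕ) : ℕ) : ℤ) := by
      intro j
      rw [hx, Finsupp.equivFunOnFinite_symm_apply_apply, Int.toNat_of_nonneg (hb j)]
    rw [KOS_det (fun j => m - 1 - (j : ℕ)), KOS_det (fun j => nu j + (m - 1 - (j : ℕ)))] at h
    have h1 := congrArg (MvPolynomial.coeff x) h
    rw [Finset.mul_sum, MvPolynomial.coeff_sum, MvPolynomial.coeff_sum] at h1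
    refine (Finset.sum_congr rfl fun τ _ => ?_).trans (h1.trans
      (Finset.sum_congr rfl fun τ _ => ?_))
    · rw [mul_left_comm, MvPolynomial.coeff_C_mul, MvPolynomial.coeff_mul_monomial', mul_one]
      congr 1
      split_ifs with h2
      · rw [← KOS_K_nat]
        congr 1
        ext j
        have h3 : (m - 1 - (τ j : ℕ) : ℕ) ≤ x j := h2 j
        show KOS_s b τ j = ((x j - (m - 1 - (τ j : ℕ)) : ℕ) : ℤ)
        rw [Nat.cast_sub h3, hx']
        unfold KOS_s
        have h4 := (τ j).2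
        have h5 := j.2
        omega
      · rw [Finsupp.le_def] at h2
        push Not at h2
        obtain ⟨j, hj⟩ := h2
        have hj' : x j < m - 1 - (τ j : ℕ) := hj
        refine KOS_K_neg S (j := j) ?_
        have h3 := hx' j
        unfold KOS_s
        have h4 := (τ j).2
        have h5 := j.2
        omega
    · rw [MvPolynomial.coeff_C_mul, MvPolynomial.coeff_monomial]
      congr 1
      have e : (Finsupp.equivFunOnFinite.symm fun i : Fin m => nu (τ i) +
          (m - 1 - (τ i : ℕ))) = x ↔ b = KOS_t (fun j => ((nu j : ℕ) : ℤ)) τ := by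
        constructor
        · intro h2
          ext j
          have h3 : nu (τ j) + (m - 1 - (τ j : ℕ)) = x j := DFunLike.congr_fun h2 j
          have h4 := hx' j
          have h5 := (τ j).2
          have h6 := j.2
          show b j = ((nu (τ j) : ℕ) : ℤ) - ((τ j : ℕ) : ℤ) + ((j : ℕ) : ℤ)
          omega
        · intro h2
          ext j
          show nu (τ j) + (m - 1 - (τ j : ℕ)) = x j
          have h3 : b j = ((nu (τ j) : ℕ) : ℤ) - ((τ j : ℕ) : ℤ) + ((j : ℕ) : ℤ) :=
            congrFun h2 j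
          have h4 := hx' j
          have h5 := (τ j).2
          have h6 := j.2
          omega
      simp only [e]
  · push Not at hb
    obtain ⟨j, hj⟩ := hb
    rw [Finset.sum_eq_zero, Finset.sum_eq_zero]
    · intro τ _
      rw [if_neg, mul_zero]
      intro h2
      have h3 : b j = ((nu (τ j) : ℕ) : ℤ) - ((τ j : ℕ) : ℤ) + ((j : ℕ) : ℤ) :=
        congrFun h2 j
      have h5 := (τ j).2
      have h6 := j.2
      omega
    · intro τ _
      rw [KOS_K_neg S (j := j), mul_zero]
      unfold KOS_s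
      have h5 := (τ j).2
      have h6 := j.2
      omega

end poly

theorem s_KOS (hJ : S_JTB) (hH : S_HSB) : S_KOS := by
  intro m nu hnu
  obtain ⟨S, hS1, hS2⟩ := KOS_schur hH nu
  have hsym := KOS_symm S nu hS2
  have hid : S * (Matrix.of fun i j : Fin m =>
      (MvPolynomial.X i : MvPolynomial (Fin m) ℤ) ^ (m - 1 - (j : ℕ))).det =
      (Matrix.of fun i j : Fin m =>
        (MvPolynomial.X i : MvPolynomial (Fin m) ℤ) ^ (nu j + (m - 1 - (j : ℕ)))).det := by
    apply KOS_inj
    intro c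
    rw [map_mul, hS2, AlgHom.map_det, AlgHom.map_det]
    have e1 : (MvPolynomial.aeval c).mapMatrix (Matrix.of fun i j : Fin m =>
        (MvPolynomial.X i : MvPolynomial (Fin m) ℤ) ^ (m - 1 - (j : ℕ))) =
        Matrix.of fun i j : Fin m => c i ^ (m - 1 - (j : ℕ)) := by
      ext i j
      simp
    have e2 : (MvPolynomial.aeval c).mapMatrix (Matrix.of fun i j : Fin m =>
        (MvPolynomial.X i : MvPolynomial (Fin m) ℤ) ^ (nu j + (m - 1 - (j : ℕ)))) =
        Matrix.of fun i j : Fin m => c i ^ (nu j + (m - 1 - (j : ℕ))) := by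
      ext i j
      simp
    rw [e1, e2, hJ]
  have hnn : ∀ a, KOS_K S a ≠ 0 → ∀ j, 0 ≤ a j := by
    intro a ha j
    by_contra h
    rw [not_le] at h
    exact ha (KOS_K_neg S h)
  have hanti : Antitone (fun j => ((nu j : ℕ) : ℤ)) := fun i j hij => by
    have := hnu hij
    simp only
    exact_mod_cast this
  have hK : KOS_P (fun j => ((nu j : ℕ) : ℤ)) (KOS_K S) :=
    ⟨hanti, hnn, KOS_K_symm S hsym, KOS_id nu S hid⟩
  refine ⟨KOS_K S, fun c => by rw [KOS_ev, hS2], fun a ha => ?_, KOS_K_symm S hsym, KOS_top hK,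
    fun a ha => ?_, fun r hr h0 => ⟨fun i hi => KOS_up hK hi, fun i hi => ?_⟩⟩
  · have h1 := Finsupp.mem_support_iff.1 ha
    refine ⟨hnn a h1, ?_⟩
    obtain ⟨d, rfl⟩ := KOS_lift a (hnn a h1)
    rw [KOS_K_nat] at h1
    have h2 : Finsupp.degree d = ∑ j, nu j := by
      by_contra h3
      exact h1 (hS1.coeff_eq_zero h3)
    rw [Finsupp.degree_eq_sum] at h2
    simp only
    exact_mod_cast h2
  · rcases (KOS_max hK (Finsupp.mem_support_iff.1 ha)).lt_or_eq with h | h
    · exact Or.inr h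
    · exact Or.inl (toLex.injective h)
  · refine KOS_down hK hi ?_ ?_
    · show (0 : ℤ) < ((nu r : ℕ) : ℤ)
      exact_mod_cast hr
    · intro j hj
      show ((nu j : ℕ) : ℤ) = 0
      rw [h0 j hj]
      rfl

end Pool.H66.S2
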