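import Pool.Agent.H66.S2.Basic

/-!
# Existence and uniqueness of patterns
-/

namespace Pool.H66.S2

open Filter Topology

theorem PEX_exists {m : ℕ} (d : ℤ) (H : ℕ) (c : Fin m → ℂ) (X : Multiset ℂ)
    (h : ∀ e ∈ X, ∃ a ∈ Wt m d H, e = mon c a) :
    ∃ B : Multiset (Fin m → ℤ), (∀ a ∈ B, a ∈ Wt m d H) ∧ X = B.map (mon c) := by
  induction X using Multiset.induction_on with
  | empty => exact ⟨0, by simp, by simp⟩
  | cons e X ih =>
    obtain ⟨B, hB, hX⟩ := ih fun e he => h e (Multiset.mem_cons_of_mem he)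
    obtain ⟨a, ha, he⟩ := h e (Multiset.mem_cons_self e X)
    refine ⟨a ::ₘ B, ?_, ?_⟩
    · intro b hb
      rcases Multiset.mem_cons.1 hb with h1 | h1
      · rw [h1]; exact ha
      · exact hB b h1
    · rw [Multiset.map_cons, ← he, ← hX]

theorem PEX_unique {m : ℕ} {d : ℤ} {H : ℕ} {c : Fin m → ℂ} (hc : ∀ j, c j ≠ 0)
    (hg : Gen (2 * H) c) {B B' : Multiset (Fin m → ℤ)} (hB : ∀ a ∈ B, a ∈ Wt m d H)
    (hB' : ∀ a ∈ B', a ∈ Wt m d H) (h : B.map (mon c) = B'.map (mon c)) : B = B' := by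
  classical
  ext a
  by_cases ha : a ∈ Wt m d H
  · have key : ∀ C : Multiset (Fin m → ℤ), (∀ b ∈ C, b ∈ Wt m d H) →
        C.count a = (C.map (mon c)).count (mon c a) := by
      intro C hC
      rw [Multiset.count_map, Multiset.count_eq_card_filter_eq]
      congr 1
      refine Multiset.filter_congr fun b hb => ?_
      constructor
      · intro h1; rw [h1]
      · intro h1; exact mon_inj hc hg ha (hC b hb) h1
    rw [key B hB, key B' hB', h]
  · rw [Multiset.count_eq_zero_of_notMem fun h1 => ha (hB a h1),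
      Multiset.count_eq_zero_of_notMem fun h1 => ha (hB' a h1)]

theorem s_PEX : S_PEX := by
  intro A τ m d H y hy p c hc
  refine ⟨?_, ?_⟩
  · obtain ⟨B, hB, h⟩ := PEX_exists d H c (A.eig y p) (hy.2 p c hc)
    exact ⟨B, hB, h⟩
  · intro hc0 hg B B' hB hB'
    exact PEX_unique hc0 hg hB.1 hB'.1 (hB.2.symm.trans hB'.2)

end Pool.H66.S2
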