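import Pool.Agent.H66.S2.Basic

/-!
PIG: pigeonhole principle for polynomials.
-/

namespace Pool.H66.S2

open Filter Topology Polynomial

theorem s_PIG : S_PIG := by
  intro ι s hs J x h
  choose f hf hx using h
  obtain ⟨i, hi⟩ : ∃ i : s, ((fun u : ℕ => (⟨f u, hf u⟩ : s)) ⁻¹' {i}).Infinite := by
    have : Finite s := hs
    obtain ⟨i, hi⟩ := Finite.exists_infinite_fiber (fun u : ℕ => (⟨f u, hf u⟩ : s))
    exact ⟨i, Set.infinite_coe_iff.1 hi⟩
  refine ⟨i, i.2, ?_⟩
  set P : ℂ[X] := ∑ j ∈ Finset.Icc 1 J, C (x i j) * X ^ j with hP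
  have h0 : P = 0 := by
    apply Polynomial.eq_zero_of_infinite_isRoot
    refine Set.Infinite.mono ?_ (hi.image (f := fun u : ℕ => (u : ℂ)) (Nat.cast_injective.injOn))
    rintro _ ⟨u, hu, rfl⟩
    have h1 : f u = i := by
      have := congrArg Subtype.val (Set.mem_singleton_iff.1 hu)
      exact this
    show P.eval (u : ℂ) = 0
    rw [hP, eval_finsetSum]
    have h2 := hx u
    rw [h1] at h2
    rw [← h2]
    refine Finset.sum_congr rfl fun j _ => ?_
    simp only [eval_mul, eval_C, eval_pow, eval_X]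
    ring
  intro j hj hj'
  have h1 : P.coeff j = x i j := by
    rw [hP, finsetSum_coeff]
    simp only [coeff_C_mul_X_pow]
    rw [Finset.sum_ite_eq, if_pos (Finset.mem_Icc.2 ⟨hj, hj'⟩)]
  rw [← h1, h0, coeff_zero]

end Pool.H66.S2
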