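import Pool.Agent.H66.S2.Basic

/-!
# Project T5, module PSU: multisets with the same power sums
-/

set_option autoImplicit false

namespace Pool.H66.S2

open Polynomial

theorem PSU_psum {D : ℕ} (x : Fin D → ℂ) (n : ℕ) :
    MvPolynomial.aeval x (MvPolynomial.psum (Fin D) ℂ n) =
      ((Finset.univ.val.map x).map fun a => a ^ n).sum := by
  unfold MvPolynomial.psum
  rw [map_sum, Multiset.map_map]
  simp only [map_pow, MvPolynomial.aeval_X]
  rfl

theorem PSU_esymm {D : ℕ} (x y : Fin D → ℂ)
    (h : ∀ n : ℕ, 1 ≤ n → n ≤ D → ((Finset.univ.val.map x).map fun a => a ^ n).sum =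
      ((Finset.univ.val.map y).map fun a => a ^ n).sum) (k : ℕ) (hk : k ≤ D) :
    MvPolynomial.aeval x (MvPolynomial.esymm (Fin D) ℂ k) =
      MvPolynomial.aeval y (MvPolynomial.esymm (Fin D) ℂ k) := by
  induction k using Nat.strong_induction_on with
  | _ k ih =>
    rcases Nat.eq_zero_or_pos k with h0 | h0
    · subst h0
      simp
    · have hx := congrArg (MvPolynomial.aeval x) (MvPolynomial.mul_esymm_eq_sum (Fin D) ℂ k)
      have hy := congrArg (MvPolynomial.aeval y) (MvPolynomial.mul_esymm_eq_sum (Fin D) ℂ k)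
      rw [map_mul, map_natCast] at hx hy
      have hk0 : (k : ℂ) ≠ 0 := by
        rw [Nat.cast_ne_zero]
        omega
      apply mul_left_cancel₀ hk0
      rw [hx, hy]
      simp only [map_mul, map_sum, map_pow, map_neg, map_one]
      congr 1
      refine Finset.sum_congr rfl fun a ha => ?_
      rw [Finset.mem_filter, Finset.HasAntidiagonal.mem_antidiagonal] at ha
      obtain ⟨ha1, ha2⟩ := ha
      have ha2' : a.1 < k := by simpa using ha2
      rw [ih a.1 ha2' (by omega), PSU_psum, PSU_psum, h a.2 (by omega) (by omega)]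

theorem PSU_fin (D : ℕ) (Y : Multiset ℂ) (h : Y.card = D) :
    ∃ y : Fin D → ℂ, Y = Finset.univ.val.map y := by
  subst h
  exact exists_fin_map Y

theorem s_PSU : S_PSU := by
  intro D X Y hX hY h
  subst hX
  obtain ⟨x, hx⟩ := exists_fin_map X
  obtain ⟨y, hy⟩ := PSU_fin X.card Y hY
  have h' : ∀ n : ℕ, 1 ≤ n → n ≤ X.card → ((Finset.univ.val.map x).map fun a => a ^ n).sum =
      ((Finset.univ.val.map y).map fun a => a ^ n).sum := by
    rw [← hx, ← hy]
    exact h
  have key := PSU_esymm x y h'
  simp only [MvPolynomial.aeval_esymm_eq_multiset_esymm] at key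
  rw [← hx, ← hy] at key
  have e1 := Multiset.prod_X_sub_X_eq_sum_esymm X
  have e2 := Multiset.prod_X_sub_X_eq_sum_esymm Y
  rw [hY] at e2
  have e3 : (X.map fun t => Polynomial.X - Polynomial.C t).prod =
      (Y.map fun t => Polynomial.X - Polynomial.C t).prod := by
    rw [e1, e2]
    refine Finset.sum_congr rfl fun j hj => ?_
    rw [key j (by rw [Finset.mem_range] at hj; omega)]
  have e4 := congrArg Polynomial.roots e3
  rwa [Polynomial.roots_multiset_prod_X_sub_C, Polynomial.roots_multiset_prod_X_sub_C] at e4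

end Pool.H66.S2
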