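import Pool.Agent.H66.S2.Basic

set_option autoImplicit false

namespace Pool.H66.S2

open Classical

section

variable {A : Aut}

/-- the function of an isobaric representation at the Frobenius points -/
noncomputable def REC_f (A : Aut) (P : Multiset A.Cusp) : A.Pl → ℂ :=
  fun v => (A.eigs P (A.frob v)).sum

theorem REC_f_zero : REC_f A 0 = 0 := by
  funext v
  simp [REC_f, AData.eigs]

theorem REC_f_cons (z : A.Cusp) (P : Multiset A.Cusp) :
    REC_f A (z ::ₘ P) = A.fr z + REC_f A P := by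
  funext v
  simp [REC_f, AData.eigs, AData.fr, AData.tr]

theorem REC_bd_fr (hB : S_BAS) (z : A.Cusp) (hz : A.Temp z) : Bd (A.fr z) := by
  refine ⟨A.deg z, fun v => ?_⟩
  have hcard := (hB A).1 z (A.frob v)
  have key : ∀ X : Multiset ℂ, (∀ a ∈ X, ‖a‖ = 1) → ‖X.sum‖ ≤ (X.card : ℝ) := by
    intro X
    induction X using Multiset.induction_on with
    | empty => simp
    | cons a X ih =>
      intro h
      rw [Multiset.sum_cons, Multiset.card_cons]
      have h1 := h a (Multiset.mem_cons_self a X)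
      have h2 := ih fun b hb => h b (Multiset.mem_cons_of_mem hb)
      calc ‖a + X.sum‖ ≤ ‖a‖ + ‖X.sum‖ := norm_add_le _ _
        _ ≤ 1 + (X.card : ℝ) := by rw [h1]; linarith
        _ = ((X.card + 1 : ℕ) : ℝ) := by push_cast; ring
  have := key (A.eig z (A.frob v)) (hz v)
  rw [hcard] at this
  exact this

theorem REC_bd_zero : Bd (0 : A.Pl → ℂ) := ⟨0, fun v => by simp⟩

theorem REC_bd_add {f g : A.Pl → ℂ} (hf : Bd f) (hg : Bd g) : Bd (f + g) := by
  obtain ⟨C, hC⟩ := hf
  obtain ⟨D, hD⟩ := hg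
  exact ⟨C + D, fun v => (norm_add_le _ _).trans (add_le_add (hC v) (hD v))⟩

theorem REC_bd_mul {f g : A.Pl → ℂ} (hf : Bd f) (hg : Bd g) : Bd (f * g) := by
  obtain ⟨C, hC⟩ := hf
  obtain ⟨D, hD⟩ := hg
  refine ⟨C * D, fun v => ?_⟩
  rw [Pi.mul_apply, norm_mul]
  exact mul_le_mul (hC v) (hD v) (norm_nonneg _) ((norm_nonneg _).trans (hC v))

theorem REC_bd_cj {f : A.Pl → ℂ} (hf : Bd f) : Bd (cj f) := by
  obtain ⟨C, hC⟩ := hf
  refine ⟨C, fun v => ?_⟩
  unfold cj
  rw [Complex.norm_conj]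
  exact hC v

theorem REC_bd_f (hB : S_BAS) (P : Multiset A.Cusp) (hP : ∀ z ∈ P, A.Temp z) :
    Bd (REC_f A P) := by
  induction P using Multiset.induction_on with
  | empty => rw [REC_f_zero]; exact REC_bd_zero
  | cons z P ih =>
    rw [REC_f_cons]
    exact REC_bd_add (REC_bd_fr hB z (hP z (Multiset.mem_cons_self z P)))
      (ih fun w hw => hP w (Multiset.mem_cons_of_mem hw))

theorem REC_cj_add (f g : A.Pl → ℂ) : cj (f + g) = cj f + cj g := by
  funext v
  simp [cj]

theorem REC_m_zero (μ : Mean A.Pl) : μ.m 0 = 0 := by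
  have h := μ.smul 0 (0 : A.Pl → ℂ) REC_bd_zero
  have e : (fun v => (0 : ℂ) * (0 : A.Pl → ℂ) v) = 0 := by
    funext v; simp
  rw [e, zero_mul] at h
  exact h

theorem REC_one (hB : S_BAS) (μ : Mean A.Pl)
    (hμ : ∀ σ σ', A.Temp σ → A.Temp σ' →
      (σ = σ' → μ.m (A.fr σ * cj (A.fr σ')) = 1) ∧ (σ ≠ σ' → μ.m (A.fr σ * cj (A.fr σ')) = 0))
    (t : A.Cusp) (ht : A.Temp t) (R : Multiset A.Cusp) (hR : ∀ z ∈ R, A.Temp z) :
    μ.m (A.fr t * cj (REC_f A R)) = (R.count t : ℂ) := by
  induction R using Multiset.induction_on with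
  | empty =>
    rw [REC_f_zero]
    have : A.fr t * cj (0 : A.Pl → ℂ) = 0 := by funext v; simp [cj]
    rw [this, REC_m_zero]; simp
  | cons z R ih =>
    have hz := hR z (Multiset.mem_cons_self z R)
    have hR' : ∀ w ∈ R, A.Temp w := fun w hw => hR w (Multiset.mem_cons_of_mem hw)
    rw [REC_f_cons, REC_cj_add, mul_add, μ.add _ _
      (REC_bd_mul (REC_bd_fr hB t ht) (REC_bd_cj (REC_bd_fr hB z hz)))
      (REC_bd_mul (REC_bd_fr hB t ht) (REC_bd_cj (REC_bd_f hB R hR'))), ih hR',
      Multiset.count_cons]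
    by_cases h : t = z
    · rw [(hμ t z ht hz).1 h, if_pos h]; push_cast; ring
    · rw [(hμ t z ht hz).2 h, if_neg h]; push_cast; ring

theorem REC_two (hB : S_BAS) (μ : Mean A.Pl)
    (hμ : ∀ σ σ', A.Temp σ → A.Temp σ' →
      (σ = σ' → μ.m (A.fr σ * cj (A.fr σ')) = 1) ∧ (σ ≠ σ' → μ.m (A.fr σ * cj (A.fr σ')) = 0))
    (R : Multiset A.Cusp) (hR : ∀ z ∈ R, A.Temp z) (T : Multiset A.Cusp)
    (hT : ∀ z ∈ T, A.Temp z) :
    μ.m (REC_f A T * cj (REC_f A R)) = ((T.map fun t => R.count t).sum : ℕ) := by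
  induction T using Multiset.induction_on with
  | empty =>
    rw [REC_f_zero, zero_mul, REC_m_zero]; simp
  | cons t T ih =>
    have ht := hT t (Multiset.mem_cons_self t T)
    have hT' : ∀ w ∈ T, A.Temp w := fun w hw => hT w (Multiset.mem_cons_of_mem hw)
    rw [REC_f_cons, add_mul, μ.add _ _
      (REC_bd_mul (REC_bd_fr hB t ht) (REC_bd_cj (REC_bd_f hB R hR)))
      (REC_bd_mul (REC_bd_f hB T hT') (REC_bd_cj (REC_bd_f hB R hR))), ih hT',
      REC_one hB μ hμ t ht R hR, Multiset.map_cons, Multiset.sum_cons]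
    push_cast; ring

theorem REC_count (T R : Multiset A.Cusp) :
    ∑ᶠ z, (T.count z * R.count z) = (T.map fun t => R.count t).sum := by
  rw [Finset.sum_multiset_map_count]
  simp only [smul_eq_mul]
  refine finsum_eq_sum_of_support_subset _ ?_
  intro z hz
  rw [Function.mem_support] at hz
  rw [Finset.mem_coe, Multiset.mem_toFinset]
  by_contra h
  exact hz (by rw [Multiset.count_eq_zero_of_notMem h, zero_mul])

theorem REC_dual (hB : S_BAS) (P : Multiset A.Cusp) (hP : ∀ z ∈ P, A.Temp z) :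
    cj (REC_f A (P.map A.dual)) = REC_f A P := by
  induction P using Multiset.induction_on with
  | empty =>
    rw [Multiset.map_zero, REC_f_zero]; funext v; simp [cj]
  | cons z P ih =>
    have hz := hP z (Multiset.mem_cons_self z P)
    rw [Multiset.map_cons, REC_f_cons, REC_f_cons, REC_cj_add,
      ih fun w hw => hP w (Multiset.mem_cons_of_mem hw)]
    congr 1
    funext v
    have hd := (hB A).2.2.2.2.1 z (A.frob v)
    unfold cj AData.fr AData.tr
    rw [hd, map_multiset_sum, Multiset.map_map]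
    have : Multiset.map ((starRingEnd ℂ) ∘ fun a => a⁻¹) (A.eig z (A.frob v)) =
        A.eig z (A.frob v) := by
      conv_rhs => rw [← Multiset.map_id (A.eig z (A.frob v))]
      refine Multiset.map_congr rfl fun a ha => ?_
      have h1 := hz v a ha
      simp only [Function.comp, id]
      rw [Complex.inv_eq_conj h1]
      simp
    rw [this]

end

theorem s_REC (hM : S_MEA) (hB : S_BAS) : S_REC := by
  intro A P Q R T U hall hT hU
  obtain ⟨μ, hμ⟩ := hM A
  have hPt : ∀ z ∈ P, A.Temp z := fun z hz => (hall z (by simp [hz])).2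
  have hQt : ∀ z ∈ Q, A.Temp z := fun z hz => (hall z (by simp [hz])).2
  have hRt : ∀ z ∈ R, A.Temp z := fun z hz => (hall z (by simp [hz])).2
  have hTt : ∀ z ∈ T, A.Temp z := fun z hz => (hall z (by simp [hz])).2
  have hUt : ∀ z ∈ U, A.Temp z := fun z hz => (hall z (by simp [hz])).2
  have h1 := REC_two hB μ hμ R hRt T hTt
  have h2 := REC_two hB μ hμ U hUt Q hQt
  have h3 : REC_f A T * cj (REC_f A R) = REC_f A Q * cj (REC_f A U) := by
    have e1 : REC_f A T = REC_f A P * REC_f A Q := by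
      funext v; exact hT (A.frob v)
    have e2 : REC_f A U = REC_f A (P.map A.dual) * REC_f A R := by
      funext v; exact hU (A.frob v)
    have e3 : cj (REC_f A U) = REC_f A P * cj (REC_f A R) := by
      rw [← REC_dual hB P hPt, e2]
      funext v
      simp [cj]
    rw [e1, e3]; ring
  rw [h3, h2] at h1
  have h4 : (Q.map fun t => U.count t).sum = (T.map fun t => R.count t).sum := by
    exact_mod_cast h1
  rw [REC_count T R, ← h4, ← REC_count Q U]
  refine finsum_congr fun z => ?_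
  rw [mul_comm]

end Pool.H66.S2
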