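import Pool.Agent.H66.S2.Basic

set_option autoImplicit false

namespace Pool.H66.S2

/-- the multiset as a finitely supported function -/
noncomputable def RMU_fs (X : Multiset ℂ) : ℂ →₀ ℂ :=
  (X.map fun e => Finsupp.single e (1 : ℂ)).sum

theorem RMU_fs_cons (a : ℂ) (X : Multiset ℂ) :
    RMU_fs (a ::ₘ X) = Finsupp.single a 1 + RMU_fs X := by
  simp [RMU_fs]

theorem RMU_fs_apply (X : Multiset ℂ) (e : ℂ) : RMU_fs X e = (X.count e : ℂ) := by
  classical
  induction X using Multiset.induction_on with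
  | empty => simp [RMU_fs]
  | cons a X ih =>
    rw [RMU_fs_cons, Finsupp.add_apply, ih, Finsupp.single_apply, Multiset.count_cons]
    by_cases h : a = e
    · rw [if_pos h, if_pos h.symm]; push_cast; ring
    · rw [if_neg h, if_neg (fun h' => h h'.symm)]; push_cast; ring

theorem RMU_fs_sum (X : Multiset ℂ) (n : ℕ) :
    ((RMU_fs X).sum fun e k => k * e ^ n) = (X.map fun a => a ^ n).sum := by
  induction X using Multiset.induction_on with
  | empty => simp [RMU_fs]
  | cons a X ih =>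
    rw [RMU_fs_cons, Finsupp.sum_add_index' (by simp) (by intros; ring), ih,
      Finsupp.sum_single_index (by simp), Multiset.map_cons, Multiset.sum_cons, one_mul]

theorem RMU_eq (hV : S_VAN) (X Y : Multiset ℂ) (hX : (0 : ℂ) ∉ X) (hY : (0 : ℂ) ∉ Y)
    (h : ∀ n : ℕ, 1 ≤ n → (X.map fun a => a ^ n).sum = (Y.map fun a => a ^ n).sum) : X = Y := by
  have h0 : RMU_fs X - RMU_fs Y = 0 := by
    refine hV _ ?_ ?_
    · intro e he h0
      rw [Finsupp.mem_support_iff, Finsupp.sub_apply, RMU_fs_apply, RMU_fs_apply, h0,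
        Multiset.count_eq_zero_of_notMem hX, Multiset.count_eq_zero_of_notMem hY] at he
      simp at he
    · intro n hn
      have : ((RMU_fs X - RMU_fs Y).sum fun e k => k * e ^ n) =
          ((RMU_fs X).sum fun e k => k * e ^ n) - ((RMU_fs Y).sum fun e k => k * e ^ n) := by
        rw [Finsupp.sum_sub_index]
        intros; ring
      rw [this, RMU_fs_sum, RMU_fs_sum, h n hn, sub_self]
  ext e
  have := DFunLike.congr_fun h0 e
  rw [Finsupp.sub_apply, RMU_fs_apply, RMU_fs_apply, Finsupp.zero_apply, sub_eq_zero] at this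
  exact_mod_cast this

theorem RMU_eigs_pow (hB : S_BAS) (A : Aut) (T : Multiset A.Cusp) (p : A.Pt) (n : ℕ) :
    A.eigs T (p.pow n) = (A.eigs T p).map fun a => a ^ n := by
  induction T using Multiset.induction_on with
  | empty => simp [AData.eigs]
  | cons z T ih =>
    rw [eigs_cons, eigs_cons, Multiset.map_add, ih, (hB A).2.2.1 z p n]
    simp

theorem RMU_zero (hB : S_BAS) (A : Aut) (T : Multiset A.Cusp) (p : A.Pt) :
    (0 : ℂ) ∉ A.eigs T p := by
  rw [mem_eigs]
  rintro ⟨σ, _, h⟩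
  exact (hB A).2.1 σ p h

/-- the multiset of products -/
theorem RMU_prod (hB : S_BAS) (hV : S_VAN) (A : Aut) (z z' : A.Cusp) (T : Multiset A.Cusp)
    (hT : ∀ p, (A.eigs T p).sum = A.tr z p * A.tr z' p) (p : A.Pt) :
    A.eigs T p = (A.eig z p ×ˢ A.eig z' p).map fun x => x.1 * x.2 := by
  refine RMU_eq hV _ _ (RMU_zero hB A T p) ?_ ?_
  · rw [Multiset.mem_map]
    rintro ⟨x, hx, h⟩
    rw [Multiset.mem_product] at hx
    rcases mul_eq_zero.1 h with h | h
    · exact (hB A).2.1 z p (h ▸ hx.1)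
    · exact (hB A).2.1 z' p (h ▸ hx.2)
  · intro n _
    rw [← RMU_eigs_pow hB A T p n, hT]
    unfold AData.tr
    rw [(hB A).2.2.1 z p n, (hB A).2.2.1 z' p n, Multiset.map_map]
    simp only [zpow_natCast]
    generalize A.eig z p = X
    generalize A.eig z' p = Y
    induction X using Multiset.induction_on with
    | empty => simp
    | cons a X ih =>
      rw [Multiset.map_cons, Multiset.sum_cons, Multiset.cons_product, Multiset.map_add,
        Multiset.sum_add, ← ih, add_mul]
      congr 1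
      rw [Multiset.map_map, ← Multiset.sum_map_mul_left]
      simp [Function.comp_def, mul_pow]

theorem RMU_irr (hB : S_BAS) (hV : S_VAN) (A : Aut) (τ : A.Cusp) (m : ℕ) (hm : 2 ≤ m)
    (hdeg : A.deg τ = m) (d d' : ℤ) (H H' : ℕ) (z : A.Cusp) (hz : z ∈ A.Irr τ m d H)
    (z' : A.Cusp) (hz' : z' ∈ A.Irr τ m d' H') (T : Multiset A.Cusp)
    (hT : ∀ p, (A.eigs T p).sum = A.tr z p * A.tr z' p) (w : A.Cusp) (hw : w ∈ T) :
    w ∈ A.Irr τ m (d + d') (H + H') := by
  refine ⟨?_, ?_⟩
  · have h1 := RMU_prod hB hV A z z' T hT (A.frob A.inf)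
    have h2 := congrArg Multiset.card h1
    rw [Multiset.card_map, Multiset.card_product, (hB A).1, (hB A).1] at h2
    have h3 : A.deg w ≤ (A.eigs T (A.frob A.inf)).card := by
      obtain ⟨T', rfl⟩ := Multiset.exists_cons_of_mem hw
      rw [eigs_cons, Multiset.card_add, (hB A).1]
      exact Nat.le_add_right _ _
    rw [h2] at h3
    refine h3.trans ?_
    rw [pow_add]
    exact Nat.mul_le_mul hz.1 hz'.1
  · intro p c hc e he
    have h1 := RMU_prod hB hV A z z' T hT p
    have h2 : e ∈ A.eigs T p := by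
      rw [mem_eigs]; exact ⟨w, hw, he⟩
    rw [h1, Multiset.mem_map] at h2
    obtain ⟨x, hx, rfl⟩ := h2
    rw [Multiset.mem_product] at hx
    obtain ⟨a, ha, ha'⟩ := hz.2 p c hc _ hx.1
    obtain ⟨b, hb, hb'⟩ := hz'.2 p c hc _ hx.2
    refine ⟨a + b, Wt_add ha hb, ?_⟩
    rw [mon_add c ?_ a b, ha', hb']
    intro j h0
    have h3 : c j ∈ A.eig τ p := by
      rw [hc]
      exact Multiset.mem_map_of_mem _ (Finset.mem_univ j)
    rw [h0] at h3
    exact (hB A).2.1 τ p h3

theorem RMU_mono (A : Aut) (τ : A.Cusp) (m : ℕ) (hm : 2 ≤ m) (d : ℤ) (H H' : ℕ) (h : H ≤ H') :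
    A.Irr τ m d H ⊆ A.Irr τ m d H' := by
  rintro z ⟨h1, h2⟩
  refine ⟨h1.trans (Nat.pow_le_pow_right (by omega) h), ?_⟩
  intro p c hc e he
  obtain ⟨a, ha, ha'⟩ := h2 p c hc e he
  exact ⟨a, Wt_mono h ha, ha'⟩

theorem RMU_clos (A : Aut) (S S' S'' : Set A.Cusp)
    (h : ∀ z ∈ S, ∀ z' ∈ S', A.tr z * A.tr z' ∈ AddSubgroup.closure (A.tr '' S''))
    (F : A.Pt → ℂ) (hF : F ∈ AddSubgroup.closure (A.tr '' S))
    (G : A.Pt → ℂ) (hG : G ∈ AddSubgroup.closure (A.tr '' S')) :
    F * G ∈ AddSubgroup.closure (A.tr '' S'') := by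
  induction hF using AddSubgroup.closure_induction with
  | mem x hx =>
    obtain ⟨z, hz, rfl⟩ := hx
    induction hG using AddSubgroup.closure_induction with
    | mem y hy =>
      obtain ⟨z', hz', rfl⟩ := hy
      exact h z hz z' hz'
    | zero => rw [mul_zero]; exact AddSubgroup.zero_mem _
    | add x y _ _ hx hy => rw [mul_add]; exact AddSubgroup.add_mem _ hx hy
    | neg x _ hx => rw [mul_neg]; exact AddSubgroup.neg_mem _ hx
  | zero => rw [zero_mul]; exact AddSubgroup.zero_mem _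
  | add x y _ _ hx hy => rw [add_mul]; exact AddSubgroup.add_mem _ hx hy
  | neg x _ hx => rw [neg_mul]; exact AddSubgroup.neg_mem _ hx

theorem RMU_sum_mem (A : Aut) (S : Set A.Cusp) (T : Multiset A.Cusp) (hT : ∀ w ∈ T, w ∈ S) :
    (fun p => (A.eigs T p).sum) ∈ AddSubgroup.closure (A.tr '' S) := by
  induction T using Multiset.induction_on with
  | empty =>
    have : (fun p => (A.eigs (0 : Multiset A.Cusp) p).sum) = (0 : A.Pt → ℂ) := by
      funext p; simp [AData.eigs]
    rw [this]; exact AddSubgroup.zero_mem _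
  | cons w T ih =>
    have : (fun p => (A.eigs (w ::ₘ T) p).sum) = A.tr w + fun p => (A.eigs T p).sum := by
      funext p
      rw [eigs_cons, Multiset.sum_add]; rfl
    rw [this]
    exact AddSubgroup.add_mem _ (AddSubgroup.subset_closure
      ⟨w, hT w (Multiset.mem_cons_self w T), rfl⟩)
      (ih fun x hx => hT x (Multiset.mem_cons_of_mem hx))

theorem s_RMU (hB : S_BAS) (hT : S_TEN) (hV : S_VAN) : S_RMU := by
  intro A τ m hsym hm hdeg
  have hten : ∀ z z' : A.Cusp, ∃ T : Multiset A.Cusp,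
      ∀ p, (A.eigs T p).sum = A.tr z p * A.tr z' p := by
    intro z z'
    obtain ⟨T, hT⟩ := hT A hsym {z} {z'}
    refine ⟨T, fun p => ?_⟩
    rw [hT p, eigs_singleton, eigs_singleton]; rfl
  refine ⟨?_, fun d H H' h => RMU_mono A τ m hm d H H' h, ?_, ?_, ?_, ?_⟩
  · intro d d' H H' z hz z' hz' T hT w hw
    exact RMU_irr hB hV A τ m hm hdeg d d' H H' z hz z' hz' T hT w hw
  · intro d d' H H' F hF G hG
    refine RMU_clos A _ _ _ ?_ F hF G hG
    intro z hz z' hz'
    obtain ⟨T, hT⟩ := hten z z'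
    have : A.tr z * A.tr z' = fun p => (A.eigs T p).sum := by
      funext p; rw [hT p]; rfl
    rw [this]
    exact RMU_sum_mem A _ T fun w hw =>
      RMU_irr hB hV A τ m hm hdeg d d' H H' z hz z' hz' T hT w hw
  · intro F hF G hG
    refine RMU_clos A _ _ _ ?_ F hF G hG
    rintro z ⟨d, H, hz⟩ z' ⟨d', H', hz'⟩
    obtain ⟨T, hT⟩ := hten z z'
    have : A.tr z * A.tr z' = fun p => (A.eigs T p).sum := by
      funext p; rw [hT p]; rfl
    rw [this]
    exact RMU_sum_mem A _ T fun w hw =>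
      ⟨d + d', H + H', RMU_irr hB hV A τ m hm hdeg d d' H H' z hz z' hz' T hT w hw⟩
  · intro d H
    refine AddSubgroup.closure_mono (Set.image_mono ?_)
    intro z hz
    exact ⟨d, H, hz⟩
  · intro d H H' h
    exact AddSubgroup.closure_mono (Set.image_mono (RMU_mono A τ m hm d H H' h))

end Pool.H66.S2
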