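import Pool.Agent.H66.S2.Basic

/-!
# Project T5, module SYM: the eigenvalues of a symmetric power
-/

set_option autoImplicit false

namespace Pool.H66.S2

theorem SYM_card (c k : ℕ) : c ^ (k + 1) + (c + 1) ^ k ≤ (c + 1) ^ (k + 1) := by
  have h : c ^ k ≤ (c + 1) ^ k := Nat.pow_le_pow_left (Nat.le_succ c) k
  calc c ^ (k + 1) + (c + 1) ^ k = c * c ^ k + (c + 1) ^ k := by ring
    _ ≤ c * (c + 1) ^ k + (c + 1) ^ k := Nat.add_le_add_right (Nat.mul_le_mul_left c h) _
    _ = (c + 1) ^ (k + 1) := by ring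

theorem SYM_main (hH : S_HSB) (k : ℕ) : ∀ X : Multiset ℂ, ∃ Y : Multiset ℂ,
    Y.card ≤ X.card ^ k ∧
    (∀ n : ℤ, (Y.map fun a => a ^ n).sum = hs k (X.map fun a => a ^ n)) ∧
    ∀ e ∈ Y, ∃ Z : Multiset ℂ, Z.card = k ∧ (∀ z ∈ Z, z ∈ X) ∧ e = Z.prod := by
  obtain ⟨h0, h1, -, h2, -⟩ := hH
  induction k with
  | zero =>
    intro X
    refine ⟨{1}, by simp, fun n => ?_, fun e he => ⟨0, rfl, by simp, ?_⟩⟩
    · rw [h0]
      simp
    · rw [Multiset.prod_zero]
      simpa using he
  | succ k ih =>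
    intro X
    induction X using Multiset.induction_on with
    | empty =>
      refine ⟨0, by simp, fun n => ?_, by simp⟩
      rw [Multiset.map_zero, h1, Multiset.sum_zero]
    | cons a X ihX =>
      obtain ⟨Y1, c1, s1, m1⟩ := ihX
      obtain ⟨Y2, c2, s2, m2⟩ := ih (a ::ₘ X)
      refine ⟨Y1 + Y2.map (fun b => a * b), ?_, fun n => ?_, fun e he => ?_⟩
      · rw [Multiset.card_add, Multiset.card_map]
        rw [Multiset.card_cons] at c2 ⊢
        exact (Nat.add_le_add c1 c2).trans (SYM_card _ _)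
      · rw [Multiset.map_add, Multiset.sum_add, s1, Multiset.map_map, Multiset.map_cons, h2]
        congr 1
        rw [← Multiset.map_cons (fun a : ℂ => a ^ n), ← s2, ← Multiset.sum_map_mul_left]
        congr 1
        refine Multiset.map_congr rfl fun b _ => ?_
        exact mul_zpow a b n
      · rcases Multiset.mem_add.1 he with he | he
        · obtain ⟨Z, z1, z2, z3⟩ := m1 e he
          exact ⟨Z, z1, fun z hz => Multiset.mem_cons_of_mem (z2 z hz), z3⟩
        · obtain ⟨b, hb, rfl⟩ := Multiset.mem_map.1 he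
          obtain ⟨Z, z1, z2, z3⟩ := m2 b hb
          refine ⟨a ::ₘ Z, by rw [Multiset.card_cons, z1], fun z hz => ?_, ?_⟩
          · rcases Multiset.mem_cons.1 hz with rfl | hz
            · exact Multiset.mem_cons_self _ _
            · exact z2 z hz
          · rw [Multiset.prod_cons, z3]

theorem s_SYM (hH : S_HSB) : S_SYM := fun k X _ => SYM_main hH k X

end Pool.H66.S2
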