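import Pool.Agent.H66.S2.Basic

/-!
# Constituents of virtual representations given by monomials
-/

namespace Pool.H66.S2

open Filter Topology

theorem CON_count (X : Multiset ℂ) (e : ℂ) :
    ((X.map fun x => (Finsupp.single x 1 : ℂ →₀ ℂ)).sum) e = (X.count e : ℂ) := by
  classical
  induction X using Multiset.induction_on with
  | empty => simp
  | cons a X ih =>
    rw [Multiset.map_cons, Multiset.sum_cons, Finsupp.add_apply, ih, Multiset.count_cons,
      Finsupp.single_apply]
    by_cases h : a = e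
    · subst h
      simp [add_comm]
    · rw [if_neg h, if_neg (fun h' => h h'.symm)]
      simp

theorem CON_ne {A : Aut} (hBAS : S_BAS) {τ : A.Cusp} {m : ℕ} {p : A.Pt} {c : Fin m → ℂ}
    (hc : A.Ord τ p c) : ∀ j, c j ≠ 0 := by
  intro j h
  apply (hBAS A).2.1 τ p
  have h1 : A.eig τ p = Finset.univ.val.map c := hc
  rw [h1, Multiset.mem_map]
  exact ⟨j, Finset.mem_univ_val j, h⟩

theorem CON_eigs_pow {A : Aut} (hBAS : S_BAS) (Q : Multiset A.Cusp) (p : A.Pt) (n : ℕ) :
    A.eigs Q (p.pow n) = (A.eigs Q p).map fun a => a ^ n := by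
  induction Q using Multiset.induction_on with
  | empty => simp [AData.eigs]
  | cons σ P ih =>
    rw [eigs_cons, eigs_cons, ih, Multiset.map_add, (hBAS A).2.2.1 σ p (n : ℤ)]
    simp

theorem s_CON (hBAS : S_BAS) (hVAN : S_VAN) : S_CON := by
  intro A τ m d H Q φ hφ hdeg htr z hz
  refine ⟨hdeg z hz, fun p c hc e he => ?_⟩
  by_contra hno
  have hno' : ∀ a ∈ Wt m d H, e ≠ mon c a := fun a ha h => hno ⟨a, ha, h⟩
  have hcne := CON_ne hBAS hc
  set ψ₁ : ℂ →₀ ℂ := ((A.eigs Q p).map fun x => (Finsupp.single x 1 : ℂ →₀ ℂ)).sum with hψ₁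
  set ψ₂ : ℂ →₀ ℂ := ∑ a ∈ φ.support, Finsupp.single (mon c a) ((φ a : ℤ) : ℂ) with hψ₂
  have h2 : ∀ x : ℂ, (∀ a ∈ φ.support, x ≠ mon c a) → ψ₂ x = 0 := by
    intro x hx
    rw [hψ₂, Finsupp.finsetSum_apply]
    exact Finset.sum_eq_zero fun a ha => by
      rw [Finsupp.single_apply, if_neg (fun h => hx a ha h.symm)]
  have hzero : ψ₁ - ψ₂ = 0 := by
    apply hVAN
    · intro x hx h0
      rw [h0, Finsupp.mem_support_iff, Finsupp.sub_apply] at hx
      apply hx
      rw [h2 0 (fun a _ h => mon_ne c hcne a h.symm), hψ₁, CON_count]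
      have : (0 : ℂ) ∉ A.eigs Q p := by
        rw [mem_eigs]
        rintro ⟨σ, -, h⟩
        exact (hBAS A).2.1 σ p h
      rw [Multiset.count_eq_zero_of_notMem this]
      simp
    · intro n hn
      have h3 : ∀ ψ : ℂ →₀ ℂ, (ψ.sum fun e k => k * e ^ n) =
          Finsupp.linearCombination ℂ (fun e : ℂ => e ^ n) ψ := by
        intro ψ
        rw [Finsupp.linearCombination_apply]
        simp only [smul_eq_mul]
      rw [h3, map_sub, hψ₁, hψ₂, map_multiset_sum, map_sum, Multiset.map_map]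
      simp only [Function.comp_apply, Finsupp.linearCombination_single, smul_eq_mul, one_mul]
      have h4 : A.Ord τ (p.pow n) (fun j => c j ^ n) := by
        have h5 : A.eig τ (p.pow (n : ℤ)) = (A.eig τ p).map fun a => a ^ (n : ℤ) :=
          (hBAS A).2.2.1 τ p (n : ℤ)
        have h6 : A.eig τ p = Finset.univ.val.map c := hc
        unfold AData.Ord
        rw [h5, h6, Multiset.map_map]
        refine Multiset.map_congr rfl fun j _ => ?_
        simp
      have h5 := htr (p.pow n) _ h4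
      rw [CON_eigs_pow hBAS, ev_pow] at h5
      rw [h5, Finsupp.sum, sub_self]
  have h7 : ψ₁ e = 0 := by
    have := DFunLike.congr_fun hzero e
    rw [Finsupp.sub_apply, h2 e (fun a ha => hno' a (hφ a ha)), sub_zero] at this
    simpa using this
  rw [hψ₁, CON_count] at h7
  have h8 : (A.eigs Q p).count e = 0 := by exact_mod_cast h7
  rw [Multiset.count_eq_zero] at h8
  exact h8 ((mem_eigs _).2 ⟨z, hz, he⟩)

end Pool.H66.S2
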