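import Pool.Agent.H66.S2.Basic

namespace Pool.H66.S2

/-- Linear independence of the values of monomials of bounded height at the powers of a point in
general position. -/
theorem LMC_van (hVAN : S_VAN) {m : ℕ} {c : Fin m → ℂ} (hc : ∀ j, c j ≠ 0) {d : ℤ} {H : ℕ}
    (hg : Gen (2 * H) c) (χ : (Fin m → ℤ) →₀ ℤ) (hχ : ∀ a ∈ χ.support, a ∈ Wt m d H)
    (h : ∀ n : ℕ, 1 ≤ n → (χ.sum fun a k => (k : ℂ) * mon c a ^ n) = 0) : χ = 0 := by
  classical
  set φ : ℂ →₀ ℂ := ∑ b ∈ χ.support, Finsupp.single (mon c b) (χ b : ℂ) with hφ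
  have hsum : ∀ n : ℕ, (φ.sum fun e k => k * e ^ n) = χ.sum fun a k => (k : ℂ) * mon c a ^ n := by
    intro n
    rw [hφ, ← Finsupp.sum_finsetSum_index (by simp) (by intros; ring)]
    unfold Finsupp.sum
    refine Finset.sum_congr rfl fun b hb => ?_
    have h1 := Finsupp.sum_single_index (a := mon c b) (b := (χ b : ℂ))
      (h := fun e k => k * e ^ n) (by simp)
    unfold Finsupp.sum at h1
    exact h1
  have happ : ∀ e, φ e = ∑ b ∈ χ.support, if mon c b = e then (χ b : ℂ) else 0 := by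
    intro e
    rw [hφ, Finset.sum_apply']
    refine Finset.sum_congr rfl fun b _ => ?_
    rw [Finsupp.single_apply]
  have h0 : φ = 0 := by
    apply hVAN
    · rintro e he rfl
      rw [Finsupp.mem_support_iff, happ] at he
      apply he
      refine Finset.sum_eq_zero fun b _ => ?_
      rw [if_neg (mon_ne c hc b)]
    · intro n hn
      rw [hsum, h n hn]
  by_contra hne
  obtain ⟨a, ha⟩ := Finsupp.support_nonempty_iff.2 hne
  have h1 : φ (mon c a) = χ a := by
    rw [happ, Finset.sum_eq_single a]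
    · rw [if_pos rfl]
    · intro b hb hba
      rw [if_neg]
      intro h2
      exact hba (mon_inj hc hg (hχ b hb) (hχ a ha) h2)
    · intro h2
      exact absurd ha h2
  rw [h0, Finsupp.zero_apply] at h1
  exact (Finsupp.mem_support_iff.1 ha) (by exact_mod_cast h1.symm)

/-- The multiplicities of a multiset as a finitely supported function. -/
noncomputable def LMC_cnt {m : ℕ} (B : Multiset (Fin m → ℤ)) : (Fin m → ℤ) →₀ ℤ :=
  (B.map fun a => Finsupp.single a (1 : ℤ)).sum

theorem LMC_cnt_apply {m : ℕ} (B : Multiset (Fin m → ℤ)) (a : Fin m → ℤ) :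
    LMC_cnt B a = B.count a := by
  classical
  induction B using Multiset.induction_on with
  | empty => simp [LMC_cnt]
  | cons b B ih =>
    unfold LMC_cnt at ih ⊢
    rw [Multiset.map_cons, Multiset.sum_cons, Finsupp.add_apply, ih, Multiset.count_cons,
      Finsupp.single_apply]
    by_cases h : a = b
    · subst h
      simp
      ring
    · rw [if_neg (fun h' => h h'.symm), if_neg h]
      simp

theorem LMC_cnt_sum {m : ℕ} (B : Multiset (Fin m → ℤ)) (f : (Fin m → ℤ) → ℂ) :
    ((LMC_cnt B).sum fun a k => (k : ℂ) * f a) = (B.map f).sum := by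
  classical
  induction B using Multiset.induction_on with
  | empty => simp [LMC_cnt]
  | cons b B ih =>
    have h1 : LMC_cnt (b ::ₘ B) = Finsupp.single b 1 + LMC_cnt B := by
      simp [LMC_cnt]
    rw [h1, Finsupp.sum_add_index' (by simp) (by intros; push_cast; ring), ih,
      Finsupp.sum_single_index (by simp)]
    simp

theorem LMC_sp_ord {A : Aut} {τ : A.Cusp} {m M : ℕ} (S : Spec A τ m M) :
    A.Ord τ S.p S.c := S.ord (eu S.y)

theorem LMC_sp_ne {A : Aut} {τ : A.Cusp} {m M : ℕ} (S : Spec A τ m M) (j : Fin m) :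
    S.c j ≠ 0 := by
  unfold Spec.c
  refine mul_ne_zero ?_ (zpow_ne_zero _ (Units.ne_zero _))
  intro h
  have := S.z_pow j
  rw [h, zero_pow S.N_pos.ne'] at this
  exact zero_ne_one this

/-- Lemma A for virtual representations. -/
theorem s_LMC (hLMA : S_LMA) (hPEX : S_PEX) (hVAN : S_VAN) (hBAS : S_BAS) : S_LMC := by
  classical
  intro m H
  obtain ⟨M₀, hM₀⟩ := hLMA m H
  refine ⟨max M₀ (2 * H), ?_⟩
  intro A τ M hM hctx hL F hF
  have hM1 : M₀ ≤ M := le_trans (le_max_left _ _) hM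
  have hM2 : 2 * H ≤ M := le_trans (le_max_right _ _) hM
  obtain ⟨k, hk, rfl⟩ := (mem_closure_tr A.toAData).1 hF
  have hn : ∀ z : A.Cusp, ∃ n₀ : ℕ, z ∈ A.Irr τ m 0 H → ∀ S : Spec A τ m M,
      ∀ B, A.Pat z 0 H S.p S.c B → B.count 0 = n₀ := by
    intro z
    by_cases hz : z ∈ A.Irr τ m 0 H
    · obtain ⟨n₀, hn₀⟩ := hM₀ A τ M hM1 hctx hL z hz
      exact ⟨n₀, fun _ => hn₀⟩
    · exact ⟨0, fun h => absurd h hz⟩
  choose n₀ hn₀ using hn
  refine ⟨k.sum fun z l => l * (n₀ z : ℤ), ?_⟩
  intro S φ hφ hF'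
  have hg : Gen (2 * H) S.c := Gen.mono S.gen hM2
  have hB : ∀ z : A.Cusp, ∃ B, z ∈ A.Irr τ m 0 H → A.Pat z 0 H S.p S.c B := by
    intro z
    by_cases hz : z ∈ A.Irr τ m 0 H
    · obtain ⟨B, hB⟩ := (hPEX A τ m 0 H z hz S.p S.c (LMC_sp_ord S)).1
      exact ⟨B, fun _ => hB⟩
    · exact ⟨0, fun h => absurd h hz⟩
  choose B hB using hB
  set ψ : (Fin m → ℤ) →₀ ℤ := k.sum fun z l => l • LMC_cnt (B z) with hψ
  have hψsum : ∀ f : (Fin m → ℤ) → ℂ, (ψ.sum fun a l => (l : ℂ) * f a) =
      k.sum fun z l => (l : ℂ) * ((B z).map f).sum := by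
    intro f
    have h1 : ψ = ∑ z ∈ k.support, (k z) • LMC_cnt (B z) := hψ
    rw [h1, ← Finsupp.sum_finsetSum_index (by simp) (by intros; push_cast; ring)]
    refine Finset.sum_congr rfl fun z hz => ?_
    rw [Finsupp.sum_smul_index (by simp)]
    show _ = (k z : ℂ) * ((B z).map f).sum
    rw [← LMC_cnt_sum, Finsupp.mul_sum]
    refine Finsupp.sum_congr fun a _ => ?_
    push_cast
    ring
  have hψapp : ∀ a, ψ a = k.sum fun z l => l * ((B z).count a : ℤ) := by
    intro a
    rw [hψ]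
    unfold Finsupp.sum
    rw [Finset.sum_apply']
    refine Finset.sum_congr rfl fun z _ => ?_
    rw [Finsupp.smul_apply, LMC_cnt_apply, smul_eq_mul]
  have hψsup : ∀ a ∈ ψ.support, a ∈ Wt m 0 H := by
    intro a ha
    rw [Finsupp.mem_support_iff, hψapp] at ha
    obtain ⟨z, hz, h1⟩ := Finset.exists_ne_zero_of_sum_ne_zero ha
    have h2 : (B z).count a ≠ 0 := by
      intro h
      apply h1
      simp [h]
    exact (hB z (hk z hz)).1 a (Multiset.count_ne_zero.1 h2)
  obtain ⟨-, -, bpow, -⟩ := hBAS A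
  have heq : φ - ψ = 0 := by
    apply LMC_van hVAN (LMC_sp_ne S) hg (d := 0)
    · intro a ha
      rcases Finset.mem_union.1 (Finsupp.support_sub ha) with h | h
      exacts [hφ a h, hψsup a h]
    · intro n hn
      have h1 := hF' n hn
      rw [ev_pow] at h1
      rw [Finsupp.sum_sub_index (by intros; push_cast; ring), ← h1, hψsum]
      rw [sub_eq_zero]
      refine Finsupp.sum_congr fun z hz => ?_
      congr 1
      unfold AData.tr
      have h2 := bpow z S.p n
      rw [h2, (hB z (hk z hz)).2, Multiset.map_map]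
      simp
  have h3 : φ 0 = ψ 0 := by
    have := DFunLike.congr_fun heq 0
    rw [Finsupp.sub_apply, Finsupp.zero_apply, sub_eq_zero] at this
    exact this
  rw [h3, hψapp]
  refine Finsupp.sum_congr fun z hz => ?_
  rw [hn₀ z (hk z hz) S (B z) (hB z (hk z hz))]

end Pool.H66.S2
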