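import Pool.Agent.H66.S2.Basic

/-!
# Symmetries of patterns at tame points
-/

namespace Pool.H66.S2

open Filter Topology

theorem STT_eu_zero : eu 0 = 1 := by
  ext
  simp [eu]

theorem s_STT (hPEX : S_PEX) (hBAS : S_BAS) : S_STT := by
  intro A τ m M S hτ hε hy0 f q γ hf hq d H hHM y hy B hB
  obtain ⟨-, hne, hpow, -, -, -, -, -, -, hconj, -, -⟩ := hBAS A
  have hc : S.c = S.z := by
    funext j
    simp [Spec.c, hε]
  have hp : S.p = ⟨S.v, S.t, 1⟩ := by
    unfold Spec.p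
    rw [hy0, STT_eu_zero]
  have hord : A.Ord τ (⟨S.v, S.t, 1⟩ : A.Pt) S.z := by
    unfold AData.Ord
    rw [S.ord 1]
    simp
  have hzne : ∀ j, S.z j ≠ 0 := by
    intro j h
    apply hne τ ⟨S.v, S.t, 1⟩
    rw [hord, Multiset.mem_map]
    exact ⟨j, Finset.mem_univ_val j, h⟩
  have hgen : Gen (2 * H) S.z := by
    have := S.gen
    have h1 : (fun j => S.z j * (eu S.y : ℂ) ^ S.ε j) = S.z := hc
    rw [h1] at this
    exact this.mono hHM
  rw [hc, hp] at hB
  -- the pattern `B ∘ γ⁻¹`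
  have h1 : A.eig y ⟨S.v, S.t, 1⟩ = (A.eig y ⟨S.v, S.t, 1⟩).map fun a => a ^ (q : ℤ) := by
    have h2 := hpow y ⟨S.v, S.t, 1⟩ (q : ℤ)
    rw [← h2]
    have h3 := hconj y S.v S.t f 1
    rw [hf] at h3
    rw [← h3]
    unfold AData.Pt.pow
    simp
  have hB' : A.Pat y d H ⟨S.v, S.t, 1⟩ S.z (B.map fun a => a ∘ γ.symm) := by
    refine ⟨?_, ?_⟩
    · intro a ha
      obtain ⟨b, hb, rfl⟩ := Multiset.mem_map.1 ha
      exact Wt_comp (hB.1 b hb) _
    · rw [h1, hB.2, Multiset.map_map, Multiset.map_map]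
      refine Multiset.map_congr rfl fun a _ => ?_
      simp only [Function.comp_apply]
      rw [← mon_comp, ← mon_zpow]
      congr 1
      funext j
      rw [Function.comp_apply, ← hq j, zpow_natCast]
  have h2 := (hPEX A τ m d H y hy ⟨S.v, S.t, 1⟩ S.z hord).2 hzne hgen _ _ hB' hB
  have h3 := congrArg (Multiset.map fun a : Fin m → ℤ => a ∘ γ) h2
  rw [Multiset.map_map] at h3
  rw [← h3]
  refine (Multiset.map_congr rfl fun a _ => ?_).trans (Multiset.map_id' B)
  funext j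
  simp

end Pool.H66.S2
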